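import Mathlib

set_option autoImplicit false

namespace Pool.Agent.P.MP_f36f0e_al

open Equiv

/-- index set: blocks of three points -/
abbrev I : Type := ℤ × Option (ZMod 2)

/-- signed permutations of `I` -/
@[ext] structure SP where
  p : Perm I
  s : I → ZMod 2

instance : Mul SP := ⟨fun a b => ⟨a.p * b.p, fun i => a.s (b.p i) + b.s i⟩⟩
instance : One SP := ⟨⟨1, 0⟩⟩
instance : Inv SP := ⟨fun a => ⟨a.p⁻¹, fun i => a.s (a.p⁻¹ i)⟩⟩

@[simp] theorem mul_p (a b : SP) : (a * b).p = a.p * b.p := rfl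
@[simp] theorem mul_s (a b : SP) (i : I) : (a * b).s i = a.s (b.p i) + b.s i := rfl
@[simp] theorem one_p : (1 : SP).p = 1 := rfl
@[simp] theorem one_s (i : I) : (1 : SP).s i = 0 := rfl
@[simp] theorem inv_p (a : SP) : (a⁻¹).p = a.p⁻¹ := rfl
@[simp] theorem inv_s (a : SP) (i : I) : (a⁻¹).s i = a.s (a.p⁻¹ i) := rfl

theorem two_add (x : ZMod 2) : x + x = 0 := by revert x; decide

instance : Group SP where
  mul_assoc a b c := by
    ext i
    · simp
    · simp
    · simp [add_assoc]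
  one_mul a := by ext i <;> simp
  mul_one a := by ext i <;> simp
  inv_mul_cancel a := by
    ext i
    · simp
    · simp
    · simp [two_add]

/-- the underlying permutation of a standard element -/
def stp (k : ℤ) (e : ℤ → ZMod 2) : Perm I where
  toFun i := (i.1 + k, i.2.map (· + e i.1))
  invFun i := (i.1 - k, i.2.map (· + e (i.1 - k)))
  left_inv := by
    rintro ⟨n, _ | x⟩ <;> simp [add_assoc, two_add]
  right_inv := by
    rintro ⟨n, _ | x⟩ <;> simp [add_assoc, two_add]

/-- standard elements -/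
def st (k : ℤ) (e : ℤ → ZMod 2) : SP :=
  ⟨stp k e, fun i => match i.2 with | none => e i.1 | some _ => 0⟩

@[simp] theorem st_p_none (k : ℤ) (e : ℤ → ZMod 2) (n : ℤ) :
    (st k e).p (n, none) = (n + k, none) := rfl
@[simp] theorem st_p_some (k : ℤ) (e : ℤ → ZMod 2) (n : ℤ) (x : ZMod 2) :
    (st k e).p (n, some x) = (n + k, some (x + e n)) := rfl
@[simp] theorem st_s_none (k : ℤ) (e : ℤ → ZMod 2) (n : ℤ) :
    (st k e).s (n, none) = e n := rfl
@[simp] theorem st_s_some (k : ℤ) (e : ℤ → ZMod 2) (n : ℤ) (x : ZMod 2) :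
    (st k e).s (n, some x) = 0 := rfl

theorem SP.ext' {a b : SP} (hp : ∀ i, a.p i = b.p i) (hs : ∀ i, a.s i = b.s i) : a = b :=
  SP.ext (Equiv.ext hp) (funext hs)

theorem st_mul (k l : ℤ) (e d : ℤ → ZMod 2) :
    st k e * st l d = st (k + l) (fun n => e (n + l) + d n) := by
  apply SP.ext'
  · rintro ⟨n, _ | x⟩
    · simp; ring
    · simp; constructor <;> ring
  · rintro ⟨n, _ | x⟩ <;> simp

theorem st_zero : st 0 0 = 1 := by
  apply SP.ext'
  · rintro ⟨n, _ | x⟩ <;> simp
  · rintro ⟨n, _ | x⟩ <;> simp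

theorem st_inv (k : ℤ) (e : ℤ → ZMod 2) : (st k e)⁻¹ = st (-k) (fun n => e (n - k)) := by
  rw [inv_eq_iff_mul_eq_one, st_mul, ← st_zero]
  congr 1
  · ring
  · funext n; simp [sub_eq_add_neg, two_add]

/-- the moved set -/
def supp (g : SP) : Set I := {i | g.p i ≠ i ∨ g.s i ≠ 0}

theorem not_mem_supp {g : SP} {i : I} : i ∉ supp g ↔ g.p i = i ∧ g.s i = 0 := by
  simp [supp]

theorem supp_mul (a b : SP) : supp (a * b) ⊆ supp a ∪ supp b := by
  intro i hi
  by_contra h
  simp only [Set.mem_union, not_or, not_mem_supp] at h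
  exact (not_mem_supp.2 (by simp [h.1.1, h.1.2, h.2.1, h.2.2])) hi

theorem supp_inv (a : SP) : supp a⁻¹ ⊆ supp a := by
  intro i hi
  by_contra h
  rw [not_mem_supp] at h
  have h1 : a.p⁻¹ i = i := by rw [Perm.inv_eq_iff_eq, h.1]
  exact (not_mem_supp.2 (by simp [h1, h.2])) hi

theorem supp_conj (g a : SP) : supp (g * a * g⁻¹) ⊆ g.p '' supp a := by
  intro i hi
  obtain ⟨j, rfl⟩ := g.p.surjective i
  refine ⟨j, ?_, rfl⟩
  by_contra h
  rw [not_mem_supp] at h
  exact (not_mem_supp.2 (by simp [h.1, h.2, two_add])) hi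

theorem p_mem_supp {a : SP} {i : I} (h : i ∈ supp a) : a.p i ∈ supp a := by
  by_cases h1 : a.p i = i
  · rwa [h1]
  · exact Or.inl fun h2 => h1 (a.p.injective h2)

theorem commute_of_disjoint {a b : SP} (h : Disjoint (supp a) (supp b)) : a * b = b * a := by
  have key : ∀ i, (a * b).p i = (b * a).p i ∧ (a * b).s i = (b * a).s i := by
    intro i
    by_cases ha : i ∈ supp a
    · have h1 := not_mem_supp.1 (Set.disjoint_left.1 h ha)
      have h2 := not_mem_supp.1 (Set.disjoint_left.1 h (p_mem_supp ha))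
      simp [h1.1, h1.2, h2.1, h2.2]
    · have h0 := not_mem_supp.1 ha
      by_cases hb : i ∈ supp b
      · have h2 := not_mem_supp.1 (Set.disjoint_right.1 h (p_mem_supp hb))
        simp [h0.1, h0.2, h2.1, h2.2]
      · have h1 := not_mem_supp.1 hb
        simp [h0.1, h0.2, h1.1, h1.2]
  exact SP.ext' (fun i => (key i).1) (fun i => (key i).2)

theorem supp_st {e : ℤ → ZMod 2} {i : I} (h : i ∈ supp (st 0 e)) : e i.1 ≠ 0 := by
  intro h0
  obtain ⟨n, _ | x⟩ := i
  · exact not_mem_supp.2 (by simpa using h0) h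
  · exact not_mem_supp.2 (by simpa using h0) h

/-- the group -/
def GG : Subgroup SP where
  carrier := {g | ∃ f k e, (supp f).Finite ∧ g = f * st k e}
  one_mem' := ⟨1, 0, 0, by
    have : supp 1 = ∅ := by ext i; simp [supp]
    simp [this], by simp [st_zero]⟩
  mul_mem' := by
    rintro _ _ ⟨f, k, e, hf, rfl⟩ ⟨f', k', e', hf', rfl⟩
    refine ⟨f * (st k e * f' * (st k e)⁻¹), k + k', fun n => e (n + k') + e' n, ?_, ?_⟩
    · exact (hf.union ((hf'.image _).subset (supp_conj _ _))).subset (supp_mul _ _)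
    · rw [← st_mul]; group
  inv_mem' := by
    rintro _ ⟨f, k, e, hf, rfl⟩
    refine ⟨(st k e)⁻¹ * f⁻¹ * (st k e)⁻¹⁻¹, -k, fun n => e (n - k), ?_, ?_⟩
    · exact ((hf.subset (supp_inv _)).image _).subset (supp_conj _ _)
    · rw [← st_inv]; group

/-- the carrier type -/
abbrev G : Type := GG

theorem fin_mem {f : SP} (hf : (supp f).Finite) : f ∈ GG := ⟨f, 0, 0, hf, by simp [st_zero]⟩

theorem st_mem (k : ℤ) (e : ℤ → ZMod 2) : st k e ∈ GG :=
  ⟨1, k, e, by
    have : supp 1 = ∅ := by ext i; simp [supp]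
    simp [this], by simp⟩

/-- transpositions -/
def sw (a b : I) : G := ⟨⟨swap a b, 0⟩, fin_mem (by
  refine (Set.toFinite {a, b}).subset fun i hi => ?_
  by_contra h
  simp only [Set.mem_insert_iff, Set.mem_singleton_iff, not_or] at h
  exact not_mem_supp.2 ⟨swap_apply_of_ne_of_ne h.1 h.2, rfl⟩ hi)⟩

/-- sign changes -/
def fl (a : I) : G := ⟨⟨1, Pi.single a 1⟩, fin_mem (by
  refine (Set.toFinite {a}).subset fun i hi => ?_
  by_contra h
  simp only [Set.mem_singleton_iff] at h
  exact not_mem_supp.2 ⟨rfl, by simp [h]⟩ hi)⟩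

/-- shifts -/
def sh (k : ℤ) : G := ⟨st k 0, st_mem _ _⟩

/-- elements of the compact open subgroup -/
def u (e : ℤ → ZMod 2) : G := ⟨st 0 e, st_mem _ _⟩

@[simp] theorem sw_p (a b : I) : (sw a b).1.p = swap a b := rfl
@[simp] theorem sw_s (a b i : I) : (sw a b).1.s i = 0 := rfl
@[simp] theorem fl_p (a : I) : (fl a).1.p = 1 := rfl
@[simp] theorem fl_s (a i : I) : (fl a).1.s i = if i = a then 1 else 0 := by
  simp [fl, Pi.single_apply]
@[simp] theorem u_val (e : ℤ → ZMod 2) : (u e).1 = st 0 e := rfl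
@[simp] theorem sh_val (k : ℤ) : (sh k).1 = st k 0 := rfl

theorem G.ext' {a b : G} (hp : ∀ i, a.1.p i = b.1.p i) (hs : ∀ i, a.1.s i = b.1.s i) : a = b :=
  Subtype.ext (SP.ext' hp hs)

theorem u_add (e d : ℤ → ZMod 2) : u (e + d) = u e * u d := by
  apply Subtype.ext
  simp [st_mul]; rfl

theorem u_zero : u 0 = 1 := Subtype.ext st_zero

theorem u_inv (e : ℤ → ZMod 2) : (u e)⁻¹ = u e := by
  rw [inv_eq_iff_mul_eq_one, ← u_add, ← u_zero]
  congr 1; funext n; simp [two_add]

theorem fl_mul_self (a : I) : fl a * fl a = 1 := by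
  apply G.ext' <;> intro i <;> simp [two_add]

theorem fl_comm (a b : I) : fl a * fl b = fl b * fl a := by
  apply G.ext' <;> intro i <;> simp [add_comm]

theorem sw_inv (a b : I) : (sw a b)⁻¹ = sw a b := by
  apply G.ext' <;> intro i <;> simp

theorem conj_fl (g : G) (a : I) : g * fl a * g⁻¹ = fl (g.1.p a) := by
  apply G.ext'
  · intro i; simp
  · intro i
    obtain ⟨j, rfl⟩ := g.1.p.surjective i
    simp [add_comm (g.1.s j), add_assoc, two_add]

theorem conj_sw_of_s (g : G) (hg : ∀ i, g.1.s i = 0) (a b : I) :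
    g * sw a b * g⁻¹ = sw (g.1.p a) (g.1.p b) := by
  apply G.ext'
  · intro i; simp [swap_apply_apply]
  · intro i; simp [hg]

theorem key_comm (g : G) {a b : I} (h : g.1.s a ≠ g.1.s b) :
    g * sw a b * g⁻¹ * sw (g.1.p a) (g.1.p b) = fl (g.1.p a) * fl (g.1.p b) := by
  have hab : a ≠ b := fun h' => h (h' ▸ rfl)
  have h1 : g.1.s a + g.1.s b = 1 := by
    revert h; generalize g.1.s a = x; generalize g.1.s b = y; revert x y; decide
  apply G.ext'
  · intro i
    obtain ⟨j, rfl⟩ := g.1.p.surjective i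
    simp [swap_apply_apply]
  · intro i
    obtain ⟨j, rfl⟩ := g.1.p.surjective i
    simp only [Subgroup.coe_mul, mul_s, sw_p, sw_s, Subgroup.coe_inv, inv_p, inv_s, fl_p, fl_s,
      swap_apply_apply, Perm.coe_mul, Function.comp_apply, Perm.coe_inv, symm_apply_apply,
      swap_apply_self, add_zero, Perm.coe_one, id_eq, EmbeddingLike.apply_eq_iff_eq]
    by_cases hja : j = a
    · subst hja; simp [hab, h1]
    · by_cases hjb : j = b
      · subst hjb; simp [hja, add_comm, h1]
      · simp [hja, hjb, swap_apply_of_ne_of_ne, two_add]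

theorem u_single (n : ℤ) :
    u (Pi.single n 1) = sw (n, some 0) (n, some 1) * fl (n, none) := by
  apply G.ext'
  · rintro ⟨m, _ | x⟩
    · simp [swap_apply_of_ne_of_ne]
    · by_cases h : m = n
      · subst h
        have : x = 0 ∨ x = 1 := by revert x; decide
        rcases this with rfl | rfl
        · simp
        · simp; rfl
      · simp [h, swap_apply_of_ne_of_ne]
  · rintro ⟨m, _ | x⟩
    · simp [Pi.single_apply]
    · simp

/-- pairs of sign changes spread in a subgroup normalised by transpositions -/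
theorem pairs_mem (K : Subgroup G) (hK : ∀ i j, ∀ x ∈ K, sw i j * x * (sw i j)⁻¹ ∈ K)
    {a b : I} (hab : a ≠ b) (h : fl a * fl b ∈ K) (c d : I) : fl c * fl d ∈ K := by
  have h1 : ∀ c, fl a * fl c ∈ K := by
    intro c
    by_cases hc : c = a
    · subst hc; rw [fl_mul_self]; exact K.one_mem
    · have := hK b c _ h
      have e : sw b c * (fl a * fl b) * (sw b c)⁻¹
          = (sw b c * fl a * (sw b c)⁻¹) * (sw b c * fl b * (sw b c)⁻¹) := by group
      rw [e, conj_fl, conj_fl] at this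
      simpa [swap_apply_of_ne_of_ne hab (Ne.symm hc)] using this
  have := K.mul_mem (h1 c) (h1 d)
  rwa [fl_comm a c, mul_assoc, ← mul_assoc (fl a), fl_mul_self, one_mul] at this

theorem gen_fin (K : Subgroup G) (hsw : ∀ a b, sw a b ∈ K) (hfl : ∀ a, fl a ∈ K)
    (f : SP) (hf : (supp f).Finite) : (⟨f, fin_mem hf⟩ : G) ∈ K := by
  classical
  -- permutation part
  have hperm : ∀ σ ∈ Subgroup.closure {σ : Perm I | σ.IsSwap},
      ∃ g ∈ K, g.1 = ⟨σ, 0⟩ := by
    intro σ hσ
    induction hσ using Subgroup.closure_induction with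
    | mem x hx =>
      obtain ⟨a, b, -, rfl⟩ := hx
      exact ⟨sw a b, hsw a b, rfl⟩
    | one => exact ⟨1, K.one_mem, rfl⟩
    | mul x y _ _ hx hy =>
      obtain ⟨g, hg, e⟩ := hx
      obtain ⟨g', hg', e'⟩ := hy
      refine ⟨g * g', K.mul_mem hg hg', ?_⟩
      rw [Subgroup.coe_mul, e, e']
      apply SP.ext' <;> intro i <;> simp
    | inv x _ hx =>
      obtain ⟨g, hg, e⟩ := hx
      refine ⟨g⁻¹, K.inv_mem hg, ?_⟩
      rw [Subgroup.coe_inv, e]
      apply SP.ext' <;> intro i <;> simp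
  have hdiag : ∀ T : Finset I, ∃ g ∈ K, g.1 = ⟨1, fun i => if i ∈ T then 1 else 0⟩ := by
    intro T
    induction T using Finset.induction_on with
    | empty => exact ⟨1, K.one_mem, by apply SP.ext' <;> intro i <;> simp⟩
    | insert a T ha ih =>
      obtain ⟨g, hg, e⟩ := ih
      refine ⟨fl a * g, K.mul_mem (hfl a) hg, ?_⟩
      rw [Subgroup.coe_mul, e]
      apply SP.ext'
      · intro i; simp
      · intro i
        by_cases hi : i = a
        · subst hi; simp [ha]
        · simp [hi]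
  have h1 : f.p ∈ Subgroup.closure {σ : Perm I | σ.IsSwap} := by
    rw [mem_closure_isSwap']
    refine hf.subset fun i hi => Or.inl ?_
    simpa [MulAction.mem_fixedBy] using hi
  obtain ⟨g, hg, e⟩ := hperm _ h1
  have h2 : {i | f.s i ≠ 0}.Finite := hf.subset fun i hi => Or.inr hi
  obtain ⟨g', hg', e'⟩ := hdiag h2.toFinset
  have : (⟨f, fin_mem hf⟩ : G) = g * g' := by
    apply Subtype.ext
    rw [Subgroup.coe_mul, e, e']
    apply SP.ext'
    · intro i; simp
    · intro i
      simp only [mul_s, Pi.zero_apply, Set.Finite.mem_toFinset, Set.mem_ofPred_eq, zero_add]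
      generalize f.s i = x
      revert x; decide
  rw [this]
  exact K.mul_mem hg hg'

theorem gen_all (K : Subgroup G) (hsw : ∀ a b, sw a b ∈ K) (hfl : ∀ a, fl a ∈ K)
    (hsh : ∀ k, sh k ∈ K) (hu : ∀ e, u e ∈ K) : K = ⊤ := by
  rw [eq_top_iff]
  rintro ⟨g, f, k, e, hf, rfl⟩ -
  have : (⟨f * st k e, ⟨f, k, e, hf, rfl⟩⟩ : G) = ⟨f, fin_mem hf⟩ * (sh k * u e) := by
    apply Subtype.ext
    simp [st_mul]
  rw [this]
  exact K.mul_mem (gen_fin K hsw hfl f hf) (K.mul_mem (hsh k) (hu e))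

theorem exists_s_zero (g : G) : ∃ b, g.1.s b = 0 := by
  obtain ⟨g, f, k, e, hf, rfl⟩ := g
  have hinf : (Set.range fun n : ℤ => (st k e).p (n, some 0)).Infinite := by
    apply Set.infinite_range_of_injective
    intro n m h
    simpa using (st k e).p.injective h
  obtain ⟨_, ⟨n, rfl⟩, hn⟩ := hinf.exists_notMem_finite hf
  refine ⟨(n, some 0), ?_⟩
  have := (not_mem_supp.1 hn).2
  simpa using this

end Pool.Agent.P.MP_f36f0e_al
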