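import Pool.Agent.P.MP_f36f0e_al.Top

set_option autoImplicit false

namespace Pool.Agent.P.MP_f36f0e_al

open Equiv Filter Topology

/-- unsigned elements -/
def HH : Subgroup G where
  carrier := {g | ∀ i, g.1.s i = 0}
  one_mem' := fun _ => rfl
  mul_mem' := fun {a b} ha hb i => by simp [ha _, hb _]
  inv_mem' := fun {a} ha i => by simp [ha _]

/-- even finitary sign changes -/
def MM : Subgroup G := Subgroup.closure {g | ∃ a b, g = fl a * fl b}

theorem pair_mem_MM (a b : I) : fl a * fl b ∈ MM := Subgroup.subset_closure ⟨a, b, rfl⟩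

theorem MM_inv {g : G} (hg : g ∈ MM) :
    g.1.p = 1 ∧ (Function.support g.1.s).Finite ∧ ∑ᶠ i, g.1.s i = 0 := by
  have hfl : ∀ a, (Function.support (fl a).1.s).Finite ∧ ∑ᶠ i, (fl a).1.s i = 1 := by
    intro a
    constructor
    · refine (Set.finite_singleton a).subset fun i hi => ?_
      by_contra h
      exact hi (by simp [show i ≠ a from h])
    · rw [finsum_eq_single _ a (fun i hi => by simp [hi])]; simp
  have hmul : ∀ x y : G, y.1.p = 1 → (Function.support x.1.s).Finite →
      (Function.support y.1.s).Finite → (Function.support (x * y).1.s).Finite ∧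
      ∑ᶠ i, (x * y).1.s i = ∑ᶠ i, x.1.s i + ∑ᶠ i, y.1.s i := by
    intro x y hy h1 h2
    have e : (x * y).1.s = fun i => x.1.s i + y.1.s i := by
      funext i; simp [hy]
    rw [e]
    exact ⟨(h1.union h2).subset (Function.support_add _ _), finsum_add_distrib h1 h2⟩
  induction hg using Subgroup.closure_induction with
  | mem x hx =>
    obtain ⟨a, b, rfl⟩ := hx
    have := hmul (fl a) (fl b) rfl (hfl a).1 (hfl b).1
    refine ⟨by simp, this.1, ?_⟩
    rw [this.2, (hfl a).2, (hfl b).2]; rfl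
  | one => exact ⟨rfl, by simp [show SP.s 1 = 0 from rfl], by simp⟩
  | mul x y _ _ hx hy =>
    have := hmul x y hy.1 hx.2.1 hy.2.1
    refine ⟨by simp [hx.1, hy.1], this.1, ?_⟩
    rw [this.2, hx.2.2, hy.2.2]; rfl
  | inv x _ hx =>
    have e : (x⁻¹).1.s = x.1.s := by funext i; simp [hx.1]
    rw [e]
    exact ⟨by simp [hx.1], hx.2.1, hx.2.2⟩

theorem fl_not_mem (a : I) : fl a ∉ MM := by
  intro h
  have := (MM_inv h).2.2
  rw [finsum_eq_single _ a (fun i hi => by simp [hi])] at this
  simp at this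

theorem comm_of_p {x y : G} (hx : x.1.p = 1) (hy : y.1.p = 1) : x * y = y * x := by
  apply G.ext' <;> intro i <;> simp [hx, hy, add_comm]

theorem MM_normal : MM.Normal := by
  constructor
  intro n hn g
  induction hn using Subgroup.closure_induction with
  | mem x hx =>
    obtain ⟨a, b, rfl⟩ := hx
    have e : g * (fl a * fl b) * g⁻¹ = (g * fl a * g⁻¹) * (g * fl b * g⁻¹) := by group
    rw [e, conj_fl, conj_fl]; exact pair_mem_MM _ _
  | one => simp
  | mul x y _ _ hx hy =>
    have e : g * (x * y) * g⁻¹ = (g * x * g⁻¹) * (g * y * g⁻¹) := by group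
    rw [e]; exact MM.mul_mem hx hy
  | inv x _ hx =>
    have e : g * x⁻¹ * g⁻¹ = (g * x * g⁻¹)⁻¹ := by group
    rw [e]; exact MM.inv_mem hx

theorem MM_closed : IsClosed (MM : Set G) := by
  have : DiscreteTopology MM := by
    apply discreteTopology_of_isOpen_singleton_one
    have h : ((⊥ : Subgroup MM) : Set MM) ∈ 𝓝 (1 : MM) := by
      have h1 := (continuous_subtype_val (p := fun g => g ∈ MM)).continuousAt (x := (1 : MM))
        U_mem_nhds
      rw [mem_map] at h1
      filter_upwards [h1] with g hg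
      obtain ⟨e, he⟩ := hg
      have hp := (MM_inv g.2).1
      have : e = 0 := by
        funext n
        have h2 := congrArg (fun g : G => g.1.p (n, some 0)) he
        simpa [hp] using h2
      rw [SetLike.mem_coe, Subgroup.mem_bot]
      apply Subtype.ext
      rw [← he, this]; exact u_zero
    simpa using Subgroup.isOpen_of_mem_nhds ⊥ h
  exact Subgroup.isClosed_of_discrete

theorem HH_closed : IsClosed (HH : Set G) := by
  rw [← isOpen_compl_iff, isOpen_iff_mem_nhds]
  intro g hg
  have : ∃ i, g.1.s i ≠ 0 := by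
    by_contra h
    push Not at h
    exact hg h
  obtain ⟨⟨n, a⟩, hi⟩ := this
  refine (mem_nhds_iff' _ _).2 ⟨{n}, fun e he h => hi ?_⟩
  have h0 := he n (Finset.mem_singleton_self n)
  have := h (n, a)
  rcases a with _ | x <;> simpa [h0] using this

theorem fl_not_mem_HH (a : I) : fl a ∉ HH := fun h => by simpa using h a

theorem HH_core : HH.normalCore = ⊥ := by
  rw [eq_bot_iff]
  intro g hg
  rw [Subgroup.mem_bot]
  have h0 : g ∈ HH := HH.normalCore_le hg
  apply G.ext'
  · intro a
    have := hg (fl a) a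
    by_contra h
    simp [h0 a, show g.1.p a ≠ a from h] at this
  · exact h0

theorem HH_maximal (K : Subgroup G) (hK : IsClosed (K : Set G)) (h : HH < K) : K = ⊤ := by
  obtain ⟨g, hg, hg'⟩ := SetLike.exists_of_lt h
  have hsw : ∀ a b, sw a b ∈ K := fun a b => h.le fun _ => rfl
  have hsh : ∀ k, sh k ∈ K := fun k => h.le (by rintro ⟨n, _ | x⟩ <;> simp)
  have : ∃ i, g.1.s i ≠ 0 := by
    by_contra h
    push Not at h
    exact hg' h
  obtain ⟨a, ha⟩ := this
  obtain ⟨b, hb⟩ := exists_s_zero g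
  have hab : g.1.s a ≠ g.1.s b := by rwa [hb]
  have h1 : fl (g.1.p a) * fl (g.1.p b) ∈ K := by
    rw [← key_comm g hab]
    exact K.mul_mem (K.mul_mem (K.mul_mem hg (hsw _ _)) (K.inv_mem hg)) (hsw _ _)
  have h2 := pairs_mem K (fun i j x hx => K.mul_mem (K.mul_mem (hsw i j) hx) (K.inv_mem (hsw i j)))
    (fun e => hab (by rw [g.1.p.injective e])) h1
  have hfl : ∀ c, fl c ∈ K := by
    intro c
    refine mem_closed hK (fl c) fun F => ?_
    obtain ⟨m, hm⟩ := Infinite.exists_notMem_finset F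
    refine ⟨Pi.single m 1, fun n hn => ?_, ?_⟩
    · have : n ≠ m := fun e => hm (e ▸ hn)
      simp [this]
    · have e : u (Pi.single m 1) = fl (m, none) * sw (m, some 0) (m, some 1) := by
        rw [← u_inv, u_single, mul_inv_rev, sw_inv, inv_eq_of_mul_eq_one_left (fl_mul_self _)]
      rw [e, ← mul_assoc]
      exact K.mul_mem (h2 _ _) (hsw _ _)
  exact gen_closed K hK hsw hfl hsh

theorem MM_minimal (N : Subgroup G) (hN : N.Normal) (h0 : N ≠ ⊥) (hle : N ≤ MM) : MM ≤ N := by
  obtain ⟨⟨g, hg⟩, hg1⟩ := (Subgroup.ne_bot_iff_exists_ne_one).1 h0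
  have hp := (MM_inv (hle hg)).1
  have : ∃ i, g.1.s i ≠ 0 := by
    by_contra h
    push Not at h
    apply hg1
    apply Subtype.ext
    exact G.ext' (fun i => by simp [hp]) h
  obtain ⟨a, ha⟩ := this
  obtain ⟨b, hb⟩ := exists_s_zero g
  have hab : g.1.s a ≠ g.1.s b := by rwa [hb]
  have h1 : fl a * fl b ∈ N := by
    have := key_comm g hab
    simp only [hp, Perm.coe_one, id_eq] at this
    rw [← this]
    have e : g * sw a b * g⁻¹ * sw a b = g * (sw a b * g⁻¹ * (sw a b)⁻¹) := by
      rw [sw_inv]; group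
    rw [e]
    exact N.mul_mem hg (hN.conj_mem _ (N.inv_mem hg) _)
  have h2 := pairs_mem N (fun i j x hx => hN.conj_mem _ hx _)
    (fun e => hab (by rw [e])) h1
  rw [MM, Subgroup.closure_le]
  rintro _ ⟨c, d, rfl⟩
  exact h2 c d

theorem main :
    ∃ (G : Type) (_ : Group G) (_ : TopologicalSpace G) (_ : IsTopologicalGroup G)
      (H M : Subgroup G),
      PolishSpace G ∧ LocallyCompactSpace G ∧
      (∃ K : Set G, IsCompact K ∧ Subgroup.closure K = ⊤) ∧
      IsClosed (H : Set G) ∧ H ≠ ⊤ ∧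
      (¬ ∃ K : Subgroup G, IsClosed (K : Set G) ∧ H < K ∧ K < ⊤) ∧
      (∀ x : G, (∀ g : G, g⁻¹ * x * g ∈ H) → x = 1) ∧
      Minimal (fun N : Subgroup G => N ≠ ⊥ ∧ IsClosed (N : Set G) ∧ N.Normal) M ∧
      (∀ x ∈ M, ∀ y ∈ M, x * y = y * x) ∧
      M < Subgroup.centralizer (M : Set G) := by
  refine ⟨G, inferInstance, inferInstance, inferInstance, HH, MM, inferInstance, inferInstance,
    compactly_generated, HH_closed, ?_, ?_, ?_, ⟨⟨?_, MM_closed, MM_normal⟩, ?_⟩, ?_, ?_⟩
  · intro h
    exact fl_not_mem_HH (0, none) (h ▸ Subgroup.mem_top _)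
  · rintro ⟨K, hK, h1, h2⟩
    exact h2.ne (HH_maximal K hK h1)
  · intro x hx
    have : x ∈ HH.normalCore := fun g => by simpa using hx g⁻¹
    rwa [HH_core, Subgroup.mem_bot] at this
  · intro h
    have h1 := pair_mem_MM (0, none) (1, none)
    rw [h, Subgroup.mem_bot] at h1
    have := congrArg (fun g : G => g.1.s (0, none)) h1
    simp at this
  · intro N hN hle
    exact MM_minimal N hN.2.2 hN.1 hle
  · intro x hx y hy
    exact comm_of_p (MM_inv hx).1 (MM_inv hy).1
  · refine lt_of_le_of_ne (fun x hx y hy => comm_of_p (MM_inv hy).1 (MM_inv hx).1) fun h => ?_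
    apply fl_not_mem (0, none)
    rw [h]
    intro y hy
    exact comm_of_p (MM_inv hy).1 rfl

end Pool.Agent.P.MP_f36f0e_al
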