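import Mathlib

set_option autoImplicit false

namespace Pool.Agent.P.MP_f36f0e_al.Many

open Filter

abbrev F : Type := ZMod 2
abbrev k : Type := AlgebraicClosure (ZMod 2)
abbrev T : Type := Module.End F k
abbrev Du : Type := Module.Dual F k

theorem countable_k : Countable k := by
  rw [← Cardinal.mk_le_aleph0_iff]
  refine (Algebra.IsAlgebraic.cardinalMk_le_max F k).trans ?_
  simp

theorem exists_chain : ∃ W : ℕ → Submodule F k, Monotone W ∧ (∀ n, (W n : Set k).Finite) ∧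
    ∀ a : k, ∀ᶠ n in atTop, a ∈ W n ∧ ∀ d ∈ W n, a * d ∈ W n := by
  have := countable_k
  obtain ⟨en, hen⟩ := exists_surjective_nat k
  refine ⟨fun n => (IntermediateField.adjoin F (en '' Set.Iio n)).toSubalgebra.toSubmodule,
    fun m n h => ?_, fun n => ?_, fun a => ?_⟩
  · intro d hd
    exact IntermediateField.adjoin.mono F _ _ (Set.image_mono (Set.Iio_subset_Iio h)) hd
  · have : Finite (en '' Set.Iio n) := ((Set.finite_Iio n).image en).to_subtype
    have := IntermediateField.finiteDimensional_adjoin (K := F) (S := en '' Set.Iio n)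
      (fun x _ => Algebra.IsIntegral.isIntegral x)
    have : Finite (IntermediateField.adjoin F (en '' Set.Iio n)) := Module.finite_of_finite F
    exact Set.toFinite ((IntermediateField.adjoin F (en '' Set.Iio n) : Set k))
  · obtain ⟨i, rfl⟩ := hen a
    filter_upwards [eventually_gt_atTop i] with n hn
    have h : en i ∈ IntermediateField.adjoin F (en '' Set.Iio n) :=
      IntermediateField.subset_adjoin F _ ⟨i, hn, rfl⟩
    exact ⟨h, fun d hd => (IntermediateField.adjoin F (en '' Set.Iio n)).mul_mem h hd⟩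

noncomputable def W : ℕ → Submodule F k := exists_chain.choose
theorem W_mono : Monotone W := exists_chain.choose_spec.1
theorem W_fin (n : ℕ) : (W n : Set k).Finite := exists_chain.choose_spec.2.1 n
theorem W_ev (a : k) : ∀ᶠ n in atTop, a ∈ W n := (exists_chain.choose_spec.2.2 a).mono fun _ h => h.1
theorem W_ex (a : k) : ∃ n, a ∈ W n := (W_ev a).exists

/-- multiplication operators -/
noncomputable def L : k →ₐ[F] T := Algebra.lmul F k
theorem L_apply (a d : k) : L a d = a * d := rfl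

/-- almost block triangular -/
def PP (t : T) : Prop := ∀ᶠ n in atTop, ∀ d ∈ W n, t d ∈ W n
/-- almost strictly block triangular -/
def AA (t : T) : Prop := ∀ᶠ n in atTop, ∀ d ∈ W (n + 1), t d ∈ W n
/-- strictly block triangular and zero on `W n` -/
def RR (n : ℕ) (t : T) : Prop := (∀ d ∈ W n, t d = 0) ∧ ∀ j, ∀ d ∈ W (j + 1), t d ∈ W j

theorem PP_L (a : k) : PP (L a) := (exists_chain.choose_spec.2.2 a).mono fun _ h => h.2
theorem PP_one : PP 1 := Eventually.of_forall fun _ _ h => h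
theorem AA.pp {t : T} (h : AA t) : PP t :=
  h.mono fun n hn d hd => hn d (W_mono (Nat.le_succ n) hd)
theorem PP.add {s t : T} (hs : PP s) (ht : PP t) : PP (s + t) :=
  (hs.and ht).mono fun n h d hd => (W n).add_mem (h.1 d hd) (h.2 d hd)
theorem PP.mul {s t : T} (hs : PP s) (ht : PP t) : PP (s * t) :=
  (hs.and ht).mono fun _ h d hd => h.1 _ (h.2 d hd)
theorem AA.add {s t : T} (hs : AA s) (ht : AA t) : AA (s + t) :=
  (hs.and ht).mono fun n h d hd => (W n).add_mem (h.1 d hd) (h.2 d hd)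
theorem AA.neg {s : T} (hs : AA s) : AA (-s) :=
  hs.mono fun n h d hd => (W n).neg_mem (h d hd)
theorem AA_zero : AA 0 := Eventually.of_forall fun n _ _ => (W n).zero_mem
theorem PP.mulA {s t : T} (hs : PP s) (ht : AA t) : AA (s * t) :=
  (hs.and ht).mono fun _ h d hd => h.1 _ (h.2 d hd)
theorem AA.mulP {s t : T} (hs : AA s) (ht : PP t) : AA (s * t) := by
  have h2 : ∀ᶠ n in atTop, ∀ d ∈ W (n + 1), t d ∈ W (n + 1) :=
    (tendsto_add_atTop_nat 1).eventually ht
  exact (hs.and h2).mono fun _ h d hd => h.1 _ (h.2 d hd)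
theorem RR.aa {n : ℕ} {t : T} (h : RR n t) : AA t := Eventually.of_forall h.2
theorem RR.mono {m n : ℕ} {t : T} (h : RR n t) (hmn : m ≤ n) : RR m t :=
  ⟨fun d hd => h.1 d (W_mono hmn hd), h.2⟩
theorem RR.neg {n : ℕ} {t : T} (h : RR n t) : RR n (-t) :=
  ⟨fun d hd => by simp [h.1 d hd], fun j d hd => (W j).neg_mem (h.2 j d hd)⟩
theorem RR.add {n : ℕ} {s t : T} (hs : RR n s) (h : RR n t) : RR n (s + t) :=
  ⟨fun d hd => by simp [h.1 d hd, hs.1 d hd],
    fun j d hd => (W j).add_mem (hs.2 j d hd) (h.2 j d hd)⟩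
theorem RR_zero (n : ℕ) : RR n 0 := ⟨fun _ _ => rfl, fun j _ _ => (W j).zero_mem⟩
theorem RR.lmul {n : ℕ} {s t : T} (hs : ∀ j, ∀ d ∈ W j, s d ∈ W j) (h : RR n t) : RR n (s * t) :=
  ⟨fun d hd => by simp [h.1 d hd], fun j d hd => hs j _ (h.2 j d hd)⟩
theorem RR.pres {n : ℕ} {t : T} (h : RR n t) (j : ℕ) (d : k) (hd : d ∈ W j) : (1 + t) d ∈ W j :=
  (W j).add_mem hd (h.2 j d (W_mono (Nat.le_succ j) hd))

theorem RR_conj {p q : T} (hp : PP p) (hq : PP q) (n : ℕ) :
    ∃ N, ∀ r, RR N r → RR n (p * r * q) := by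
  obtain ⟨N, hN⟩ := eventually_atTop.1 ((hp.and hq).and (eventually_ge_atTop n))
  have h0 : ∀ r, RR N r → ∀ d ∈ W N, (p * r * q) d = 0 := fun r hr d hd => by
    simp [hr.1 _ ((hN N le_rfl).1.2 d hd)]
  refine ⟨N, fun r hr => ⟨fun d hd => h0 r hr d (W_mono (hN N le_rfl).2 hd), fun j d hd => ?_⟩⟩
  by_cases hj : N ≤ j
  · exact (hN j hj).1.1 _ (hr.2 j _ ((hN (j + 1) (by omega)).1.2 d hd))
  · rw [h0 r hr d (W_mono (by omega) hd)]; exact (W j).zero_mem

theorem surj_W {t : T} (ht : Function.Injective t) {j : ℕ} (h : ∀ d ∈ W j, t d ∈ W j)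
    (e : k) (he : e ∈ W j) : ∃ d ∈ W j, t d = e := by
  have := ((W_fin j).surjOn_iff_bijOn_of_mapsTo (f := t) h).2
    (((W_fin j).injOn_iff_bijOn_of_mapsTo (f := t) h).1 ht.injOn)
  exact this he

theorem unit_inj (g : Tˣ) : Function.Injective (g : T) := fun x y h => by
  have := congrArg ((g⁻¹ : Tˣ) : T) h
  simpa [← Module.End.mul_apply] using this

theorem inv_pres (g : Tˣ) {j : ℕ} (h : ∀ d ∈ W j, (g : T) d ∈ W j) (e : k) (he : e ∈ W j) :
    ((g⁻¹ : Tˣ) : T) e ∈ W j := by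
  obtain ⟨d, hd, rfl⟩ := surj_W (unit_inj g) h e he
  simpa [← Module.End.mul_apply] using hd

theorem PP.inv {g : Tˣ} (h : PP (g : T)) : PP ((g⁻¹ : Tˣ) : T) :=
  h.mono fun _ hn => inv_pres g hn

theorem RR.isUnit {n : ℕ} {r : T} (h : RR n r) : IsUnit (1 + r) := by
  have hinj : Function.Injective (1 + r : T) := by
    rw [injective_iff_map_eq_zero]
    intro d hd
    obtain ⟨j, hj⟩ := W_ex d
    have e : d = -(r d) := by
      rw [eq_neg_iff_add_eq_zero]; simpa using hd
    induction j with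
    | zero => rw [e, h.1 d (W_mono (Nat.zero_le n) hj), neg_zero]
    | succ j ih => exact ih (by rw [e]; exact (W j).neg_mem (h.2 j d hj))
  rw [Module.End.isUnit_iff]
  refine ⟨hinj, fun e => ?_⟩
  obtain ⟨j, hj⟩ := W_ex e
  obtain ⟨d, -, hd⟩ := surj_W hinj (h.pres j) e hj
  exact ⟨d, hd⟩

/-- finite rank maps with rows in `Z` -/
noncomputable def sp (Z : Submodule F Du) : Submodule F T :=
  Submodule.span F {t | ∃ ψ ∈ Z, ∃ e : k, t = ψ.smulRight e}

theorem sp_gen {Z : Submodule F Du} {ψ : Du} (h : ψ ∈ Z) (e : k) : ψ.smulRight e ∈ sp Z :=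
  Submodule.subset_span ⟨ψ, h, e, rfl⟩

theorem sp_le {Z : Submodule F Du} {B : Submodule F T}
    (h : ∀ ψ ∈ Z, ∀ e : k, ψ.smulRight e ∈ B) : sp Z ≤ B :=
  Submodule.span_le.2 (by rintro _ ⟨ψ, hψ, e, rfl⟩; exact h ψ hψ e)

theorem sp_mono {Z Z' : Submodule F Du} (h : Z ≤ Z') : sp Z ≤ sp Z' :=
  sp_le fun _ hψ e => sp_gen (h hψ) e

theorem mul_tn (g : T) (ψ : Du) (e : k) : g * ψ.smulRight e = ψ.smulRight (g e) := by
  ext d; simp
theorem tn_mul (g : T) (ψ : Du) (e : k) : (ψ.smulRight e : T) * g = (ψ ∘ₗ g).smulRight e := by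
  ext d; simp

theorem sp_lmul {Z : Submodule F Du} (g : T) {c : T} (hc : c ∈ sp Z) : g * c ∈ sp Z :=
  sp_le (B := (sp Z).comap (LinearMap.mulLeft F g))
    (fun ψ hψ e => by simpa [mul_tn] using sp_gen hψ (g e)) hc

/-- invariance under multiplications -/
def Inv (Z : Submodule F Du) : Prop := ∀ ψ ∈ Z, ∀ a : k, ψ ∘ₗ L a ∈ Z

theorem sp_rmul {Z : Submodule F Du} (hZ : Inv Z) (a : k) {c : T} (hc : c ∈ sp Z) :
    c * L a ∈ sp Z :=
  sp_le (B := (sp Z).comap (LinearMap.mulRight F (L a)))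
    (fun ψ hψ e => by simpa [tn_mul] using sp_gen (hZ ψ hψ a) e) hc

theorem sp_row {Z : Submodule F Du} (l : Du) {c : T} (hc : c ∈ sp Z) : l ∘ₗ c ∈ Z := by
  refine sp_le (B := Z.comap (LinearMap.llcomp F k k F l)) (fun ψ hψ e => ?_) hc
  have : l ∘ₗ ψ.smulRight e = l e • ψ := by ext d; simp [mul_comm]
  change l ∘ₗ ψ.smulRight e ∈ Z
  rw [this]; exact Z.smul_mem (l e) hψ

theorem sp_range {Z : Submodule F Du} {c : T} (hc : c ∈ sp Z) :
    ∀ᶠ n in atTop, ∀ d, c d ∈ W n := by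
  induction hc using Submodule.span_induction with
  | mem t ht =>
    obtain ⟨ψ, -, e, rfl⟩ := ht
    exact (W_ev e).mono fun n hn d => (W n).smul_mem _ hn
  | zero => exact Eventually.of_forall fun n _ => (W n).zero_mem
  | add s t _ _ hs ht => exact (hs.and ht).mono fun n h d => (W n).add_mem (h.1 d) (h.2 d)
  | smul a t _ ht => exact ht.mono fun n h d => (W n).smul_mem a (h d)

theorem sp_AA {Z : Submodule F Du} {c : T} (hc : c ∈ sp Z) : AA c :=
  (sp_range hc).mono fun _ h d _ => h d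

theorem sp_countable {Z : Submodule F Du} (hZ : (Z : Set Du).Countable) :
    (sp Z : Set T).Countable := by
  have := countable_k
  have : Countable Z := hZ.to_subtype
  have : sp Z = Submodule.span F (Set.range fun p : Z × k => ((p.1 : Du).smulRight p.2 : T)) := by
    unfold sp; congr 1; ext t
    exact ⟨fun ⟨ψ, h, e, ht⟩ => ⟨(⟨ψ, h⟩, e), ht.symm⟩, fun ⟨p, hp⟩ => ⟨p.1, p.1.2, p.2, hp.symm⟩⟩
  rw [this, ← Finsupp.range_linearCombination, LinearMap.coe_range]
  exact Set.countable_range _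

/-- `Z` separates points -/
def Sep (Z : Submodule F Du) : Prop := ∀ d : k, d ≠ 0 → ∃ ψ ∈ Z, ψ d ≠ 0

theorem Inv.sep {Z : Submodule F Du} (hZ : Inv Z) {ψ : Du} (h : ψ ∈ Z) (h0 : ψ ≠ 0) : Sep Z := by
  intro d hd
  obtain ⟨e, he⟩ : ∃ e, ψ e ≠ 0 := by
    by_contra h'; push Not at h'; exact h0 (LinearMap.ext h')
  refine ⟨_, hZ ψ h (e / d), ?_⟩
  simpa [L_apply, div_mul_cancel₀ e hd] using he

theorem Sep.approx {Z : Submodule F Du} (hZ : Sep Z) (n : ℕ) (l : Du) :
    ∃ ψ ∈ Z, ∀ d ∈ W n, ψ d = l d := by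
  have : Finite (W n) := (W_fin n).to_subtype
  have : Module.Finite F (W n) := Module.Finite.of_finite
  let U : Submodule F (Module.Dual F (W n)) := Z.map (W n).subtype.dualMap
  have h1 : U.dualCoannihilator = ⊥ := by
    rw [eq_bot_iff]
    intro d hd
    rw [Submodule.mem_bot]
    by_contra h0
    obtain ⟨ψ, hψ, h⟩ := hZ d (fun h => h0 (Subtype.ext h))
    exact h ((Submodule.mem_dualCoannihilator d).1 hd _ ⟨ψ, hψ, rfl⟩)
  have h2 : U = ⊤ := by
    rw [← Subspace.dualCoannihilator_dualAnnihilator_eq (W := U), h1,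
      Submodule.dualAnnihilator_bot]
  have h3 : (W n).subtype.dualMap l ∈ U := h2 ▸ Submodule.mem_top
  obtain ⟨ψ, hψ, h⟩ := h3
  exact ⟨ψ, hψ, fun d hd => LinearMap.congr_fun h ⟨d, hd⟩⟩

theorem Sep.dense {Z : Submodule F Du} (hZ : Sep Z) {y : T} (hy : AA y) (n : ℕ) :
    ∃ c ∈ sp Z, RR n (y - c) := by
  classical
  obtain ⟨N, hN⟩ := eventually_atTop.1 (hy.and (eventually_ge_atTop n))
  have : Finite (W N) := (W_fin N).to_subtype
  have : Module.Finite F (W N) := Module.Finite.of_finite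
  let b := Module.finBasis F (W N)
  choose l hl using fun i => LinearMap.exists_extend (p := W N) (b.coord i)
  choose ψ hψ hψ' using fun i => hZ.approx N (l i ∘ₗ y)
  have hc : ∀ d, (∑ i, ((ψ i).smulRight (b i : k) : T)) d ∈ W N := fun d => by
    rw [LinearMap.sum_apply]
    exact Submodule.sum_mem _ fun i _ => (W N).smul_mem _ (b i).2
  have h0 : ∀ d ∈ W N, (y - ∑ i, ((ψ i).smulRight (b i : k) : T)) d = 0 := fun d hd => by
    have hyd : y d ∈ W N := (hN N le_rfl).1 d (W_mono (Nat.le_succ N) hd)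
    have e := congrArg (W N).subtype (b.sum_repr ⟨y d, hyd⟩)
    rw [LinearMap.sub_apply, sub_eq_zero, LinearMap.sum_apply]
    refine e.symm.trans ?_
    rw [map_sum]
    refine Finset.sum_congr rfl fun i _ => ?_
    have := LinearMap.congr_fun (hl i) ⟨y d, hyd⟩
    simp only [LinearMap.comp_apply, Submodule.subtype_apply, Module.Basis.coord_apply] at this
    simp [hψ' i d hd, this]
  refine ⟨_, Submodule.sum_mem _ fun i _ => sp_gen (hψ i) (b i : k),
    fun d hd => h0 d (W_mono (hN N le_rfl).2 hd), fun j d hd => ?_⟩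
  by_cases hj : N ≤ j
  · exact (W j).sub_mem ((hN j hj).1 d hd) (W_mono hj (hc d))
  · rw [h0 d (W_mono (by omega) hd)]; exact (W j).zero_mem

theorem ex_dual {e e' : k} (h : e' ∉ Submodule.span F {e}) : ∃ μ : Du, μ e' = 1 ∧ μ e = 0 := by
  obtain ⟨g, hg, hg'⟩ := LinearMap.exists_extend_of_notMem
    (0 : Submodule.span F {e} →ₗ[F] F) h 1
  exact ⟨g, hg', LinearMap.congr_fun hg ⟨e, Submodule.mem_span_singleton_self e⟩⟩

theorem F_cases (x : F) : x = 0 ∨ x = 1 := by revert x; decide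

/-- a subspace stable under transvections is a left ideal for the finite rank maps -/
theorem rows_mem {B : Submodule F T}
    (hB : ∀ (l : Du) (e : k), l e = 0 → ∀ y ∈ B, (1 + l.smulRight e) * y ∈ B)
    {y : T} (hy : y ∈ B) (l : Du) (e : k) : (l ∘ₗ y).smulRight e ∈ B := by
  have h1 : ∀ (l : Du) (e : k), l e = 0 → ∀ y ∈ B, (l ∘ₗ y).smulRight e ∈ B := by
    intro l e h y hy
    have := B.sub_mem (hB l e h y hy) hy
    rwa [add_mul, one_mul, add_sub_cancel_left, tn_mul] at this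
  rcases F_cases (l e) with h | h
  · exact h1 l e h y hy
  obtain ⟨e', he', hl⟩ : ∃ e' : k, e' ≠ 0 ∧ l e' = 0 := by
    obtain ⟨x, y, hxy, h⟩ := Finite.exists_ne_map_eq_of_infinite (l : k → F)
    exact ⟨x - y, sub_ne_zero.2 hxy, by simp [h]⟩
  obtain ⟨μ, h1', h2'⟩ := ex_dual (e := e) (e' := e') (by
    rw [Submodule.mem_span_singleton]
    rintro ⟨a, rfl⟩
    rcases F_cases a with rfl | rfl
    · simp at he'
    · simp [h] at hl)
  have := h1 μ e h2' _ (h1 l e' hl y hy)
  have e2 : μ ∘ₗ (l ∘ₗ y).smulRight e' = l ∘ₗ y := by ext d; simp [h1']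
  rwa [e2] at this

theorem ex_row {y : T} (hy : y ≠ 0) : ∃ l : Du, l ∘ₗ y ≠ 0 := by
  obtain ⟨d, hd⟩ : ∃ d, y d ≠ 0 := by
    by_contra h'; push Not at h'; exact hy (LinearMap.ext h')
  obtain ⟨μ, h, -⟩ := ex_dual (e := 0) (e' := y d) (by simpa using hd)
  exact ⟨μ, fun h0 => by simpa [h] using LinearMap.congr_fun h0 d⟩

/-- rows all of whose tensors lie in `B` -/
noncomputable def rows (B : Submodule F T) : Submodule F Du where
  carrier := {ψ | ∀ e : k, ψ.smulRight e ∈ B}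
  zero_mem' := fun e => by
    have : ((0 : Du).smulRight e : T) = 0 := by ext; simp
    rw [this]; exact B.zero_mem
  add_mem' := fun {a b} ha hb e => by
    have : ((a + b).smulRight e : T) = a.smulRight e + b.smulRight e := by
      ext; simp [add_smul]
    rw [this]; exact B.add_mem (ha e) (hb e)
  smul_mem' := fun c a ha e => by
    have : ((c • a).smulRight e : T) = c • a.smulRight e := by ext; simp [mul_smul]
    rw [this]; exact B.smul_mem c (ha e)

theorem rows_inv {B : Submodule F T}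
    (hB : ∀ a : kˣ, ∀ y ∈ B, L ((a⁻¹ : kˣ) : k) * y * L (a : k) ∈ B) : Inv (rows B) := by
  intro ψ hψ a e
  by_cases ha : a = 0
  · have : ((ψ ∘ₗ L a).smulRight e : T) = 0 := by ext; simp [ha]
    rw [this]; exact B.zero_mem
  have := hB (Units.mk0 a ha) _ (hψ (a * e))
  rw [mul_tn, tn_mul] at this
  simpa [L_apply, ha] using this

theorem exists_phi : ∃ φ ψ : Du, ∀ a b : k, φ ∘ₗ L a + ψ ∘ₗ L b = 0 → a = 0 ∧ b = 0 := by
  classical
  have := countable_k
  obtain ⟨φ, hφ, -⟩ := ex_dual (e := 0) (e' := 1) (by simp)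
  have h1 : ∀ a : k, φ ∘ₗ L a = 0 → a = 0 := fun a h => by
    by_contra ha
    have := LinearMap.congr_fun h a⁻¹
    simp [L_apply, ha, hφ] at this
  let b := Module.Basis.ofVectorSpace F k
  have : Infinite (Module.Basis.ofVectorSpaceIndex F k) := by
    by_contra h
    rw [not_infinite_iff_finite] at h
    have := Module.Finite.of_basis b
    have : Finite k := Module.finite_of_finite F
    exact not_finite k
  obtain ⟨en, hen⟩ := exists_surjective_nat k
  let em := Infinite.natEmbedding (Module.Basis.ofVectorSpaceIndex F k)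
  let ψ : Du := b.constr F (Function.extend em (fun n => φ (en n * b (em n)) + 1) 0)
  have h2 : ∀ a : k, ψ ≠ φ ∘ₗ L a := fun a h => by
    obtain ⟨n, rfl⟩ := hen a
    have := LinearMap.congr_fun h (b (em n))
    rw [Module.Basis.constr_basis, em.injective.extend_apply] at this
    simp [L_apply] at this
  refine ⟨φ, ψ, fun a c h => ?_⟩
  by_cases hc : c = 0
  · refine ⟨h1 a ?_, hc⟩
    simpa [hc] using h
  · refine absurd ?_ (h2 (-(a / c)))
    ext d
    have := LinearMap.congr_fun h (d / c)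
    simp only [LinearMap.add_apply, LinearMap.comp_apply, L_apply, LinearMap.zero_apply,
      mul_div_cancel₀ d hc] at this
    rw [LinearMap.comp_apply, L_apply, neg_mul, map_neg, eq_neg_iff_add_eq_zero, add_comm,
      ← this]
    congr 2; field_simp

noncomputable def φ1 : Du := exists_phi.choose
noncomputable def φ2 : Du := exists_phi.choose_spec.choose
theorem phi_ind (a b : k) (h : φ1 ∘ₗ L a + φ2 ∘ₗ L b = 0) : a = 0 ∧ b = 0 :=
  exists_phi.choose_spec.choose_spec a b h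

/-- the row map of a pair of field elements -/
noncomputable def row : (k × k) →ₗ[F] Du where
  toFun p := φ1 ∘ₗ L p.1 + φ2 ∘ₗ L p.2
  map_add' p q := by ext d; simp [L_apply]; abel
  map_smul' c p := by ext d; simp [L_apply]

theorem row_inj : Function.Injective row := by
  rw [injective_iff_map_eq_zero]
  exact fun p h => Prod.ext (phi_ind _ _ h).1 (phi_ind _ _ h).2

theorem row_L (p : k × k) (a : k) : row p ∘ₗ L a = row (p.1 * a, p.2 * a) := by
  ext d; simp [row, L_apply]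

/-- all rows -/
noncomputable def Y : Submodule F Du := LinearMap.range row
/-- the rows of slope `θ` -/
noncomputable def Yt (θ : k) : Submodule F Du :=
  LinearMap.range (row ∘ₗ LinearMap.prod LinearMap.id (L θ))

theorem mem_Yt {θ : k} {ψ : Du} : ψ ∈ Yt θ ↔ ∃ a, row (a, θ * a) = ψ := Iff.rfl
theorem Yt_le (θ : k) : Yt θ ≤ Y := fun _ ⟨_, h⟩ => ⟨_, h⟩
theorem Y_inv : Inv Y := by
  rintro _ ⟨p, rfl⟩ a; exact ⟨_, (row_L p a).symm⟩
theorem Yt_inv (θ : k) : Inv (Yt θ) := by
  intro ψ hψ a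
  obtain ⟨b, rfl⟩ := mem_Yt.1 hψ
  exact mem_Yt.2 ⟨b * a, by rw [row_L, mul_assoc]⟩
theorem row_ne (θ : k) : row (1, θ) ≠ 0 := fun h => one_ne_zero (phi_ind _ _ h).1
theorem Y_sep : Sep Y := Y_inv.sep ⟨(1, 0), rfl⟩ (row_ne 0)
theorem Y_countable : (Y : Set Du).Countable := by
  have := countable_k
  exact Set.countable_range _

theorem approx {g : Tˣ} {a : k} (h : AA ((g : T) - L a)) (n : ℕ) :
    ∃ r, RR n r ∧ (g : T) * (1 + r) - L a ∈ sp Y := by
  have hg : PP (g : T) := by simpa using h.pp.add (PP_L a)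
  obtain ⟨c, hc, hr⟩ := Y_sep.dense (hg.inv.mulA h) n
  refine ⟨_, hr.neg, ?_⟩
  have : (g : T) * (1 + -(((g⁻¹ : Tˣ) : T) * ((g : T) - L a) - c)) - L a = g * c := by
    rw [neg_sub, mul_add, mul_sub, ← mul_assoc, Units.mul_inv, one_mul, mul_one]; abel
  rw [this]; exact sp_lmul _ hc

end Pool.Agent.P.MP_f36f0e_al.Many
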