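import Pool.Agent.P.MP_f36f0e_al.ManyA

set_option autoImplicit false

namespace Pool.Agent.P.MP_f36f0e_al.Many

open Filter Topology

theorem uinv (g : Tˣ) (d : k) : ((g⁻¹ : Tˣ) : T) ((g : T) d) = d := by
  rw [← Module.End.mul_apply, Units.inv_mul]; rfl
theorem uinv' (g : Tˣ) (d : k) : (g : T) (((g⁻¹ : Tˣ) : T) d) = d := by
  rw [← Module.End.mul_apply, Units.mul_inv]; rfl

/-- affine maps `z ↦ c + g z a⁻¹` -/
@[ext] structure G : Type where
  c : T
  g : Tˣ
  a : kˣ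
  hc : c ∈ sp Y
  hg : AA ((g : T) - L a)

theorem G.pp (x : G) : PP (x.g : T) := by simpa using x.hg.pp.add (PP_L x.a)

noncomputable instance : Mul G := ⟨fun x y =>
  ⟨x.c + x.g * y.c * L ((x.a⁻¹ : kˣ) : k), x.g * y.g, x.a * y.a,
    (sp Y).add_mem x.hc (sp_rmul Y_inv _ (sp_lmul _ y.hc)), by
      have h := (x.pp.mulA y.hg).add (x.hg.mulP (PP_L y.a))
      have e : (x.g : T) * ((y.g : T) - L y.a) + ((x.g : T) - L x.a) * L y.a
          = ((x.g * y.g : Tˣ) : T) - L ((x.a * y.a : kˣ) : k) := by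
        ext d; simp [L_apply]
      rwa [e] at h⟩⟩
noncomputable instance : One G := ⟨⟨0, 1, 1, (sp Y).zero_mem, by simpa using AA_zero⟩⟩
noncomputable instance : _root_.Inv G := ⟨fun x =>
  ⟨-(((x.g⁻¹ : Tˣ) : T) * x.c * L (x.a : k)), x.g⁻¹, x.a⁻¹,
    (sp Y).neg_mem (sp_rmul Y_inv _ (sp_lmul _ x.hc)), by
      have h := ((x.pp.inv.mulA x.hg).mulP (PP_L ((x.a⁻¹ : kˣ) : k))).neg
      have e : -(((x.g⁻¹ : Tˣ) : T) * ((x.g : T) - L x.a) * L ((x.a⁻¹ : kˣ) : k))
          = ((x.g⁻¹ : Tˣ) : T) - L ((x.a⁻¹ : kˣ) : k) := by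
        ext d; simp [L_apply, uinv]
      rwa [e] at h⟩⟩

theorem mul_c (x y : G) : (x * y).c = x.c + x.g * y.c * L ((x.a⁻¹ : kˣ) : k) := rfl
theorem mul_g (x y : G) : (x * y).g = x.g * y.g := rfl
theorem mul_a (x y : G) : (x * y).a = x.a * y.a := rfl
theorem one_c : (1 : G).c = 0 := rfl
theorem one_g : (1 : G).g = 1 := rfl
theorem one_a : (1 : G).a = 1 := rfl
theorem inv_c (x : G) : x⁻¹.c = -(((x.g⁻¹ : Tˣ) : T) * x.c * L (x.a : k)) := rfl
theorem inv_g (x : G) : x⁻¹.g = x.g⁻¹ := rfl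
theorem inv_a (x : G) : x⁻¹.a = x.a⁻¹ := rfl

noncomputable instance : Group G := Group.ofLeftAxioms
  (fun x y z => G.ext (by
      ext d; simp [mul_c, mul_g, mul_a, L_apply, add_assoc, mul_assoc])
    (mul_assoc _ _ _) (mul_assoc _ _ _))
  (fun x => G.ext (by ext d; simp [mul_c, one_c, one_g, one_a]) (one_mul _) (one_mul _))
  (fun x => G.ext (by ext d; simp [mul_c, one_c, inv_c, inv_g, inv_a])
    (inv_mul_cancel _) (inv_mul_cancel _))

/-- image of the base point -/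
noncomputable def pt (x : G) : T := x.c + x.g * L ((x.a⁻¹ : kˣ) : k) - 1

theorem pt_mul (x y : G) : pt (x * y) = pt x + x.g * pt y * L ((x.a⁻¹ : kˣ) : k) := by
  ext d; simp [pt, mul_c, mul_g, mul_a, L_apply, mul_assoc]; abel
theorem pt_one : pt 1 = 0 := by ext d; simp [pt, one_c, one_g, one_a]
theorem pt_AA (x : G) : AA (pt x) := by
  have h := (sp_AA x.hc).add (x.hg.mulP (PP_L ((x.a⁻¹ : kˣ) : k)))
  have e : x.c + ((x.g : T) - L x.a) * L ((x.a⁻¹ : kˣ) : k) = pt x := by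
    ext d; simp [pt, L_apply, add_sub_assoc]
  rwa [e] at h
theorem pt_eq {x y : G} (h : pt x = pt y) : pt (x⁻¹ * y) = 0 := by
  rw [pt_mul, ← h, ← pt_mul, inv_mul_cancel, pt_one]

/-- the point stabiliser -/
noncomputable def H : Subgroup G where
  carrier := {x | pt x = 0}
  one_mem' := pt_one
  mul_mem' := fun {x y} hx hy => by
    have hx' : pt x = 0 := hx
    have hy' : pt y = 0 := hy
    change pt (x * y) = 0
    rw [pt_mul, hx', hy']; simp
  inv_mem' := fun {x} hx => by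
    have hx' : pt x = pt 1 := hx.trans pt_one.symm
    simpa using pt_eq hx'

/-- translations -/
noncomputable def tr (c : T) (hc : c ∈ sp Y) : G := ⟨c, 1, 1, hc, by simpa using AA_zero⟩
/-- left multiplications -/
noncomputable def lm (g : Tˣ) (hg : AA ((g : T) - 1)) : G :=
  ⟨0, g, 1, (sp Y).zero_mem, by simpa using hg⟩
theorem isUnit_L (a : kˣ) : IsUnit (L (a : k)) := a.isUnit.map L
/-- conjugations -/
noncomputable def cj (a : kˣ) : G :=
  ⟨0, (isUnit_L a).unit, a, (sp Y).zero_mem, by simpa using AA_zero⟩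
/-- elements of the compact open subgroup -/
noncomputable def u {n : ℕ} {r : T} (h : RR n r) : G := lm h.isUnit.unit (by simpa using h.aa)

theorem pt_tr (c : T) (hc : c ∈ sp Y) : pt (tr c hc) = c := by ext d; simp [pt, tr]
theorem pt_u {n : ℕ} {r : T} (h : RR n r) : pt (u h) = r := by ext d; simp [pt, u, lm]
theorem cj_mem (a : kˣ) : cj a ∈ H := by
  change pt (cj a) = 0
  ext d; simp [pt, cj, L_apply]

/-- basic open subgroups -/
def V (n : ℕ) : Set G := {x | x.c = 0 ∧ x.a = 1 ∧ RR n ((x.g : T) - 1)}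

theorem u_mem {n : ℕ} {r : T} (h : RR n r) : u h ∈ V n := ⟨rfl, rfl, by simpa [u, lm] using h⟩

theorem V_pres {n : ℕ} {x : G} (h : x ∈ V n) (j : ℕ) (d : k) (hd : d ∈ W j) :
    (x.g : T) d ∈ W j := by simpa using h.2.2.pres j d hd
theorem V_fix {n : ℕ} {x : G} (h : x ∈ V n) (d : k) (hd : d ∈ W n) : (x.g : T) d = d := by
  simpa [sub_eq_zero] using h.2.2.1 d hd
theorem V_pt {n : ℕ} {x : G} (h : x ∈ V n) : pt x = (x.g : T) - 1 := by
  ext d; simp [pt, h.1, h.2.1]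

theorem V_mul {n : ℕ} {x y : G} (hx : x ∈ V n) (hy : y ∈ V n) : x * y ∈ V n := by
  refine ⟨by simp [mul_c, hx.1, hy.1], by simp [mul_a, hx.2.1, hy.2.1], ?_⟩
  have h := hx.2.2.add (hy.2.2.lmul (V_pres hx))
  have e : (x.g : T) - 1 + (x.g : T) * ((y.g : T) - 1) = ((x * y).g : T) - 1 := by
    ext d; simp [mul_g]
  rwa [e] at h

theorem V_inv {n : ℕ} {x : G} (hx : x ∈ V n) : x⁻¹ ∈ V n := by
  refine ⟨by simp [inv_c, hx.1], by simp [inv_a, hx.2.1], ?_⟩
  have h := (hx.2.2.lmul (s := ((x.g⁻¹ : Tˣ) : T)) (fun j => inv_pres x.g (V_pres hx j))).neg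
  have e : -(((x.g⁻¹ : Tˣ) : T) * ((x.g : T) - 1)) = (x⁻¹.g : T) - 1 := by
    ext d; simp [inv_g, uinv]
  rwa [e] at h

theorem V_mono {m n : ℕ} (h : m ≤ n) : V n ⊆ V m := fun _ hx => ⟨hx.1, hx.2.1, hx.2.2.mono h⟩

theorem V_conj (x : G) (n : ℕ) : ∃ N, ∀ v ∈ V N, x * v * x⁻¹ ∈ V n := by
  obtain ⟨N1, h1⟩ := RR_conj x.pp x.pp.inv n
  obtain ⟨N2, h2⟩ := (sp_range (sp_lmul ((x.g⁻¹ : Tˣ) : T) x.hc)).exists
  refine ⟨max N1 N2, fun v hv => ⟨?_, by simp [mul_a, inv_a, hv.2.1], ?_⟩⟩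
  · ext d
    have := V_fix (V_mono (le_max_right N1 N2) hv) _ (h2 d)
    simp only [Module.End.mul_apply] at this
    simp [mul_c, mul_g, mul_a, inv_c, hv.1, hv.2.1, L_apply, this, uinv']
  · have h := h1 _ (V_mono (le_max_left N1 N2) hv).2.2
    have e : (x.g : T) * ((v.g : T) - 1) * ((x.g⁻¹ : Tˣ) : T) = ((x * v * x⁻¹).g : T) - 1 := by
      ext d; simp [mul_g, inv_g, uinv']
    rwa [e] at h

/-- the filter basis -/
@[reducible] noncomputable def basis : GroupFilterBasis G where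
  sets := Set.range V
  nonempty := ⟨V 0, 0, rfl⟩
  inter_sets := by
    rintro _ _ ⟨m, rfl⟩ ⟨n, rfl⟩
    exact ⟨V (max m n), ⟨_, rfl⟩,
      Set.subset_inter (V_mono (le_max_left _ _)) (V_mono (le_max_right _ _))⟩
  one' := by
    rintro _ ⟨n, rfl⟩
    exact ⟨rfl, rfl, by simpa [one_g] using RR_zero n⟩
  mul' := by
    rintro _ ⟨n, rfl⟩
    refine ⟨V n, ⟨n, rfl⟩, ?_⟩
    rintro _ ⟨x, hx, y, hy, rfl⟩
    exact V_mul hx hy
  inv' := by
    rintro _ ⟨n, rfl⟩
    exact ⟨V n, ⟨n, rfl⟩, fun _ hx => V_inv hx⟩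
  conj' := by
    rintro x _ ⟨n, rfl⟩
    obtain ⟨N, h⟩ := V_conj x n
    exact ⟨V N, ⟨N, rfl⟩, fun g hg => h g hg⟩

noncomputable instance : TopologicalSpace G := basis.topology
instance : IsTopologicalGroup G := basis.isTopologicalGroup

theorem mem_nhds' (x : G) (S : Set G) : S ∈ 𝓝 x ↔ ∃ n, ∀ v ∈ V n, x * v ∈ S := by
  have := (basis.nhds_hasBasis x).mem_iff (t := S)
  refine this.trans ⟨?_, ?_⟩
  · rintro ⟨_, ⟨n, rfl⟩, h⟩
    exact ⟨n, fun v hv => h ⟨v, hv, rfl⟩⟩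
  · rintro ⟨n, h⟩
    refine ⟨V n, ⟨n, rfl⟩, ?_⟩
    rintro _ ⟨v, hv, rfl⟩
    exact h v hv

theorem mem_closed {S : Set G} (hS : IsClosed S) (x : G)
    (h : ∀ n, ∃ v ∈ V n, x * v ∈ S) : x ∈ S := by
  by_contra hx
  obtain ⟨n, hn⟩ := (mem_nhds' x Sᶜ).1 (hS.isOpen_compl.mem_nhds hx)
  obtain ⟨v, hv, h'⟩ := h n
  exact hn v hv h'

theorem closed_of {S : Set G} (h : ∀ x, (∀ n, ∃ v ∈ V n, x * v ∈ S) → x ∈ S) : IsClosed S := by
  rw [← isOpen_compl_iff, isOpen_iff_mem_nhds]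
  intro x hx
  rw [mem_nhds']
  by_contra h'
  push Not at h'
  exact hx (h x fun n => by simpa using h' n)

instance : T2Space G :=
  (basis.t2Space_iff_sInter_subset (t := basis.topology) rfl).2 (by
    intro x hx
    have h : ∀ n, x ∈ V n := fun n => hx _ ⟨n, rfl⟩
    refine G.ext (h 0).1 (Units.ext ?_) (h 0).2.1
    ext d
    obtain ⟨n, hn⟩ := W_ex d
    exact V_fix (h n) d hn)

theorem compact_V : IsCompact (V 0) := by
  rw [isCompact_iff_ultrafilter_le_nhds']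
  intro 𝒰 hU
  have h1 : ∀ d : k, ∃ e, ∀ᶠ x in (𝒰 : Filter G), ((x.g : T) - 1) d = e := fun d => by
    obtain ⟨n, hn⟩ := W_ex d
    have : (⋃ e ∈ (W n : Set k), {x : G | ((x.g : T) - 1) d = e}) ∈ 𝒰 :=
      mem_of_superset hU fun x hx => Set.mem_biUnion
        (hx.2.2.2 n d (W_mono (Nat.le_succ n) hn)) rfl
    obtain ⟨e, -, he⟩ := (Ultrafilter.finite_biUnion_mem_iff (W_fin n)).1 this
    exact ⟨e, he⟩
  choose f hf using h1
  let r : T :=
    { toFun := f
      map_add' := fun d e => by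
        obtain ⟨x, h1, h2, h3⟩ := ((hf d).and ((hf e).and (hf (d + e)))).exists
        rw [← h1, ← h2, ← h3, map_add]
      map_smul' := fun c d => by
        obtain ⟨x, h1, h2⟩ := ((hf d).and (hf (c • d))).exists
        rw [← h1, ← h2, map_smul]; rfl }
  have hU' : ∀ᶠ x in (𝒰 : Filter G), x ∈ V 0 := hU
  have hr : RR 0 r := by
    refine ⟨fun d hd => ?_, fun j d hd => ?_⟩
    · obtain ⟨x, h1, h2⟩ := ((hf d).and hU').exists
      exact h1.symm.trans (h2.2.2.1 d hd)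
    · obtain ⟨x, h1, h2⟩ := ((hf d).and hU').exists
      change f d ∈ W j
      exact h1 ▸ h2.2.2.2 j d hd
  refine ⟨u hr, u_mem hr, fun S hS => ?_⟩
  obtain ⟨n, hn⟩ := (mem_nhds' _ S).1 hS
  have h2 : ∀ᶠ x in (𝒰 : Filter G), ∀ d ∈ (W n : Set k), ((x.g : T) - 1) d = f d :=
    (eventually_all_finite (W_fin n)).2 fun d _ => hf d
  filter_upwards [h2, hU'] with x hx hx0
  have h3 := V_mul (V_inv (u_mem hr)) hx0
  have h4 : (u hr)⁻¹ * x ∈ V n := by
    refine ⟨h3.1, h3.2.1, fun d hd => ?_, h3.2.2.2⟩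
    have h5 : (x.g : T) d = ((u hr).g : T) d := by
      have := hx d hd
      simp only [LinearMap.sub_apply, Module.End.one_apply, sub_eq_iff_eq_add'] at this
      rw [this]; rfl
    simp [mul_g, inv_g, h5, uinv]
  simpa using hn _ h4

instance : LocallyCompactSpace G :=
  compact_V.locallyCompactSpace_of_mem_nhds_of_group
    ((mem_nhds' 1 _).2 ⟨0, fun v hv => by simpa using hv⟩)

instance : TopologicalSpace.SeparableSpace G := by
  have := countable_k
  have hC : Countable (sp Y) := (sp_countable Y_countable).to_subtype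
  have : Countable kˣ := Units.val_injective.countable
  let D : Set G := {x | (x.g : T) - L x.a ∈ sp Y}
  have hD : Countable D := by
    refine Function.Injective.countable
      (f := fun x : D => ((⟨x.1.c, x.1.hc⟩, ⟨_, x.2⟩, x.1.a) : sp Y × sp Y × kˣ)) ?_
    intro x y h
    simp only [Prod.mk.injEq, Subtype.mk.injEq] at h
    obtain ⟨h1, h2, h3⟩ := h
    rw [h3, sub_left_inj] at h2
    exact Subtype.ext (G.ext h1 (Units.ext h2) h3)
  refine ⟨⟨D, Set.countable_coe_iff.1 hD, fun x => ?_⟩⟩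
  refine mem_closed isClosed_closure x fun n => ?_
  obtain ⟨r, hr, h⟩ := approx x.hg n
  refine ⟨u hr, u_mem hr, subset_closure ?_⟩
  simpa [D, mul_g, mul_a, u, lm] using h

instance : PolishSpace G := by
  let := IsTopologicalGroup.rightUniformSpace G
  have : IsRightUniformGroup G := ⟨rfl⟩
  have : CompleteSpace G := IsRightUniformGroup.completeSpace_of_weaklyLocallyCompactSpace
  have : (𝓝 (1 : G)).IsCountablyGenerated := by
    have hb : (𝓝 (1 : G)).HasBasis (fun _ : ℕ => True) V := by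
      refine ⟨fun S => (mem_nhds' 1 S).trans ⟨?_, ?_⟩⟩
      · rintro ⟨n, h⟩
        exact ⟨n, trivial, fun v hv => by simpa using h v hv⟩
      · rintro ⟨n, -, h⟩
        exact ⟨n, fun v hv => by simpa using h hv⟩
    exact (HasCountableBasis.mk hb (Set.to_countable _)).isCountablyGenerated
  have : (uniformity G).IsCountablyGenerated := by
    rw [uniformity_eq_comap_nhds_one']; infer_instance
  have : TopologicalSpace.IsCompletelyMetrizableSpace G :=
    TopologicalSpace.IsCompletelyMetrizableSpace.of_completeSpace_metrizable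
  infer_instance

end Pool.Agent.P.MP_f36f0e_al.Many
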