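import Pool.Agent.P.MP_f36f0e_al.ManyB

set_option autoImplicit false

namespace Pool.Agent.P.MP_f36f0e_al.Many

open Filter Topology

theorem mem_H {x : G} : x ∈ H ↔ pt x = 0 := Iff.rfl

theorem H_closed : IsClosed (H : Set G) := closed_of fun x hx => by
  refine mem_H.2 (LinearMap.ext fun d => ?_)
  obtain ⟨n, hn⟩ := W_ex (((x.a⁻¹ : kˣ) : k) * d)
  obtain ⟨v, hv, h⟩ := hx n
  have h1 := LinearMap.congr_fun (mem_H.1 h) d
  rw [pt_mul, V_pt hv] at h1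
  simpa [L_apply, hv.2.2.1 _ (by simpa using hn)] using h1

theorem tn_ne {ψ : Du} (h : ψ ≠ 0) : (ψ.smulRight (1 : k) : T) ≠ 0 := fun h0 =>
  h (LinearMap.ext fun d => by simpa using LinearMap.congr_fun h0 d)

theorem row_mem (p : k × k) : row p ∈ Y := ⟨p, rfl⟩

theorem H_ne : H ≠ ⊤ := fun h => by
  have : tr _ (sp_gen (row_mem (1, 0)) 1) ∈ H := h ▸ Subgroup.mem_top _
  exact tn_ne (row_ne 0) ((pt_tr _ _).symm.trans this)

theorem faithful (x : G) (hx : ∀ g : G, g⁻¹ * x * g ∈ H) : x = 1 := by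
  have h0 : pt x = 0 := by simpa [mem_H] using hx 1
  have h1 : ∀ c, c ∈ sp Y → (x.g : T) * c * L ((x.a⁻¹ : kˣ) : k) = c := fun c hc => by
    have e : pt (x * tr c hc) = pt (tr c hc * ((tr c hc)⁻¹ * x * tr c hc)) := by
      congr 1; group
    rw [pt_mul, pt_mul (tr c hc), mem_H.1 (hx (tr c hc)), h0, pt_tr] at e
    simpa using e
  obtain ⟨d, hd⟩ : ∃ d, row (1, 0) d = 1 := by
    by_contra h; push Not at h
    exact row_ne 0 (LinearMap.ext fun d => (F_cases _).resolve_right (h d))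
  have h2 : ∀ e d : k, row (1, 0) (((x.a⁻¹ : kˣ) : k) * d) • (x.g : T) e = row (1, 0) d • e :=
    fun e d => by
      simpa [L_apply] using LinearMap.congr_fun (h1 _ (sp_gen (row_mem (1, 0)) e)) d
  have h3 : row (1, 0) (((x.a⁻¹ : kˣ) : k) * d) = 1 := by
    refine (F_cases _).resolve_left fun h => ?_
    have := h2 1 d
    rw [h, hd] at this
    simp at this
  have hg : x.g = 1 := Units.ext (LinearMap.ext fun e => by
    have := h2 e d
    rw [h3, hd] at this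
    simpa using this)
  have ha : x.a = 1 := by
    have h4 : row (1, 0) ∘ₗ L ((x.a⁻¹ : kˣ) : k) = row (1, 0) := LinearMap.ext fun d => by
      have := h2 1 d
      rw [hg] at this
      exact smul_left_injective F (one_ne_zero (α := k)) this
    rw [row_L] at h4
    have := congrArg Prod.fst (row_inj h4)
    simpa using this
  refine G.ext ?_ hg ha
  simpa [pt, hg, ha, one_c] using h0

section maximal
variable {K : Subgroup G} (hK : IsClosed (K : Set G)) (hH : H ≤ K)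
include hH

theorem mem_of_pt {x y : G} (hx : x ∈ K) (h : pt x = pt y) : y ∈ K := by
  simpa using K.mul_mem hx (hH (mem_H.2 (pt_eq h)))

theorem pt_act {h x : G} (hh : h ∈ H) (hx : x ∈ K) :
    ∃ y ∈ K, pt y = h.g * pt x * L ((h.a⁻¹ : kˣ) : k) :=
  ⟨h * x, K.mul_mem (hH hh) hx, by rw [pt_mul, mem_H.1 hh, zero_add]⟩

include hK

theorem pt_closed {z : T} (hz : AA z) (h : ∀ n, ∃ y ∈ K, RR n (pt y - z)) :
    ∃ x ∈ K, pt x = z := by
  obtain ⟨c, hc, hr⟩ := Y_sep.dense hz 0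
  have e : pt (tr c hc * u hr) = z := by
    rw [pt_mul, pt_tr, pt_u]; ext d; simp [tr]
  refine ⟨_, mem_closed hK _ fun n => ?_, e⟩
  set x := tr c hc * u hr
  obtain ⟨N, hN⟩ := RR_conj x.pp.inv (PP_L (x.a : k)) n
  obtain ⟨y, hy, hy'⟩ := h N
  refine ⟨u (hN _ hy'), u_mem _, mem_of_pt hH hy ?_⟩
  rw [pt_mul, pt_u, e]
  ext d; simp [L_apply, uinv']

theorem pt_lmul {w : Tˣ} (hw : AA ((w : T) - 1)) {x : G} (hx : x ∈ K) :
    ∃ y ∈ K, pt y = w * pt x := by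
  have hp : PP (w : T) := by simpa using hw.pp.add PP_one
  refine pt_closed hK hH (hp.mulA (pt_AA x)) fun n => ?_
  obtain ⟨N, hN⟩ := RR_conj hp (pt_AA x).pp n
  obtain ⟨r, hr, h⟩ := approx (g := w) (a := 1) (by simpa using hw) N
  let h' : G := ⟨-((w : T) * (1 + r) - L 1), w * hr.isUnit.unit, 1, (sp Y).neg_mem h,
    by simpa using sp_AA h⟩
  have hh : h' ∈ H := mem_H.2 (by ext d; simp [pt, h'])
  obtain ⟨y, hy, e⟩ := pt_act hH hh hx
  refine ⟨y, hy, ?_⟩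
  have e2 : pt y - w * pt x = w * r * pt x := by
    rw [e]; ext d; simp [h']
  rw [e2]; exact hN r hr

theorem pt_add {x y : G} (hx : x ∈ K) (hy : y ∈ K) : ∃ z ∈ K, pt z = pt x + pt y := by
  obtain ⟨y1, h1, e1⟩ := pt_act hH (cj_mem x.a⁻¹) hy
  obtain ⟨y2, h2, e2⟩ := pt_lmul hK hH (w := x.g⁻¹ * (isUnit_L x.a).unit) (by
    have h := (x.pp.inv.mulA x.hg).neg
    have e : -(((x.g⁻¹ : Tˣ) : T) * ((x.g : T) - L x.a))
        = ((x.g⁻¹ * (isUnit_L x.a).unit : Tˣ) : T) - 1 := by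
      ext d; simp [uinv]
    rwa [e] at h) h1
  refine ⟨x * y2, K.mul_mem hx h2, ?_⟩
  rw [pt_mul, e2, e1]
  ext d; simp [cj, L_apply, uinv']

end maximal

theorem trans_unit (l : Du) (e : k) (h : l e = 0) : IsUnit (1 + l.smulRight e : T) := by
  have h2 : (1 + l.smulRight e : T) * (1 + l.smulRight e) = 1 := by
    ext d; simp [h, add_assoc, CharTwo.add_self_eq_zero]
  exact ⟨⟨_, _, h2, h2⟩, rfl⟩

theorem trans_AA (l : Du) (e : k) (h : l e = 0) :
    AA (((trans_unit l e h).unit : T) - 1) := by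
  simpa using sp_AA (sp_gen (Z := ⊤) (ψ := l) Submodule.mem_top e)

theorem maximal : ¬ ∃ K : Subgroup G, IsClosed (K : Set G) ∧ H < K ∧ K < ⊤ := by
  rintro ⟨K, hK, hH, hT⟩
  let B : Submodule F T :=
    { carrier := {z | ∃ x ∈ K, pt x = z}
      zero_mem' := ⟨1, K.one_mem, pt_one⟩
      add_mem' := by
        rintro _ _ ⟨x, hx, rfl⟩ ⟨y, hy, rfl⟩
        exact pt_add hK hH.le hx hy
      smul_mem' := by
        rintro c _ ⟨x, hx, rfl⟩
        rcases F_cases c with rfl | rfl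
        · exact ⟨1, K.one_mem, by rw [pt_one, zero_smul]⟩
        · exact ⟨x, hx, by rw [one_smul]⟩ }
  obtain ⟨x, hx, hx'⟩ := SetLike.exists_of_lt hH
  obtain ⟨l, hl⟩ := ex_row (y := pt x) hx'
  have h1 : l ∘ₗ pt x ∈ rows B := rows_mem (B := B) (by
    rintro l e h _ ⟨y, hy, rfl⟩
    exact pt_lmul hK hH.le (trans_AA l e h) hy) ⟨x, hx, rfl⟩ l
  have h2 : Inv (rows B) := rows_inv (by
    rintro a _ ⟨y, hy, rfl⟩
    obtain ⟨z, hz, e⟩ := pt_act hH.le (cj_mem a⁻¹) hy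
    exact ⟨z, hz, by simpa [cj] using e⟩)
  refine hT.ne (eq_top_iff.2 fun y _ => ?_)
  obtain ⟨z, hz, e⟩ := pt_closed hK hH.le (pt_AA y) fun n => by
    obtain ⟨c, hc, hr⟩ := (h2.sep h1 hl).dense (pt_AA y) n
    obtain ⟨z, hz, rfl⟩ := sp_le (Z := rows B) (B := B) (fun ψ hψ e => hψ e) hc
    exact ⟨z, hz, by simpa using hr.neg⟩
  exact mem_of_pt hH.le hz e

/-- the translations with rows of slope `θ` -/
noncomputable def M (θ : k) : Subgroup G where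
  carrier := {x | x.c ∈ sp (Yt θ) ∧ x.g = 1 ∧ x.a = 1}
  one_mem' := ⟨(sp (Yt θ)).zero_mem, rfl, rfl⟩
  mul_mem' := fun {x y} hx hy => ⟨by
    simpa [mul_c, hx.2.1, hx.2.2] using (sp (Yt θ)).add_mem hx.1 hy.1,
    by simp [mul_g, hx.2.1, hy.2.1], by simp [mul_a, hx.2.2, hy.2.2]⟩
  inv_mem' := fun {x} hx => ⟨by
    simpa [inv_c, hx.2.1, hx.2.2] using hx.1,
    by simp [inv_g, hx.2.1], by simp [inv_a, hx.2.2]⟩

theorem mem_M {θ : k} {x : G} : x ∈ M θ ↔ x.c ∈ sp (Yt θ) ∧ x.g = 1 ∧ x.a = 1 := Iff.rfl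

theorem conj_tr (x : G) (c : T) (hc : c ∈ sp Y) :
    x * tr c hc * x⁻¹ = tr (x.g * c * L ((x.a⁻¹ : kˣ) : k)) (sp_rmul Y_inv _ (sp_lmul _ hc)) := by
  refine G.ext ?_ (by simp [mul_g, inv_g, tr]) (by simp [mul_a, inv_a, tr])
  ext d; simp [mul_c, mul_g, mul_a, inv_c, tr, L_apply, uinv']

theorem eq_tr {θ : k} {x : G} (hx : x ∈ M θ) : x = tr x.c x.hc := G.ext rfl hx.2.1 hx.2.2

theorem M_normal (θ : k) : (M θ).Normal := ⟨fun x hx g => by
  rw [eq_tr hx, conj_tr]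
  exact ⟨sp_rmul (Yt_inv θ) _ (sp_lmul _ hx.1), rfl, rfl⟩⟩

theorem M_closed (θ : k) : IsClosed (M θ : Set G) := closed_of fun x hx => by
  obtain ⟨v, hv, h⟩ := hx 0
  refine ⟨by simpa [mul_c, hv.1] using h.1, Units.ext (LinearMap.ext fun d => ?_),
    by simpa [mul_a, hv.2.1] using h.2.2⟩
  obtain ⟨n, hn⟩ := W_ex d
  obtain ⟨v, hv, h⟩ := hx n
  have := congrArg (fun g : Tˣ => (g : T) d) h.2.1
  simpa [mul_g, V_fix hv d hn] using this

theorem row_Yt (θ : k) : row (1, θ) ∈ Yt θ := mem_Yt.2 ⟨1, by rw [mul_one]⟩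

theorem M_ne (θ : k) : M θ ≠ ⊥ := fun h => by
  have h1 : tr _ (sp_gen (row_mem (1, θ)) 1) ∈ M θ := ⟨sp_gen (row_Yt θ) 1, rfl, rfl⟩
  rw [h, Subgroup.mem_bot] at h1
  exact tn_ne (row_ne θ) (congrArg G.c h1)

theorem M_comm (θ : k) : ∀ x ∈ M θ, ∀ y ∈ M θ, x * y = y * x := fun x hx y hy =>
  G.ext (by simp [mul_c, hx.2.1, hx.2.2, hy.2.1, hy.2.2, add_comm])
    (by simp [mul_g, hx.2.1, hy.2.1]) (by simp [mul_a, hx.2.2, hy.2.2])

theorem M_min (θ : k) :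
    Minimal (fun N : Subgroup G => N ≠ ⊥ ∧ IsClosed (N : Set G) ∧ N.Normal) (M θ) := by
  refine ⟨⟨M_ne θ, M_closed θ, M_normal θ⟩, fun N ⟨h0, _, hN⟩ hle => ?_⟩
  let B : Submodule F T :=
    { carrier := {c | ∃ hc : c ∈ sp Y, tr c hc ∈ N}
      zero_mem' := ⟨(sp Y).zero_mem, N.one_mem⟩
      add_mem' := by
        rintro c d ⟨hc, h1⟩ ⟨hd, h2⟩
        refine ⟨(sp Y).add_mem hc hd, ?_⟩
        have e : tr (c + d) ((sp Y).add_mem hc hd) = tr c hc * tr d hd :=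
          G.ext (by simp [mul_c, tr]) (by simp [mul_g, tr]) (by simp [mul_a, tr])
        rw [e]; exact N.mul_mem h1 h2
      smul_mem' := by
        rintro a c h
        rcases F_cases a with rfl | rfl
        · rw [zero_smul]; exact ⟨(sp Y).zero_mem, N.one_mem⟩
        · rw [one_smul]; exact h }
  have hB : ∀ x : G, ∀ c ∈ B, x.g * c * L ((x.a⁻¹ : kˣ) : k) ∈ B := by
    rintro x c ⟨hc, h⟩
    exact ⟨_, conj_tr x c hc ▸ hN.conj_mem _ h x⟩
  obtain ⟨x, hx, hx1⟩ := (N.bot_or_exists_ne_one).resolve_left h0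
  have hc0 : x.c ≠ 0 := fun h => hx1 (G.ext h (hle hx).2.1 (hle hx).2.2)
  obtain ⟨l, hl⟩ := ex_row hc0
  have h1 : l ∘ₗ x.c ∈ rows B := rows_mem (B := B) (fun l e h y hy => by
    simpa [lm] using hB (lm _ (trans_AA l e h)) y hy) ⟨x.hc, eq_tr (hle hx) ▸ hx⟩ l
  have h2 : Inv (rows B) := rows_inv fun a y hy => by simpa [cj] using hB (cj a⁻¹) y hy
  obtain ⟨b, hb⟩ := mem_Yt.1 (sp_row l (hle hx).1)
  have hb0 : b ≠ 0 := by
    rintro rfl
    exact hl (by rw [← hb, mul_zero]; exact map_zero row)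
  intro y hy
  have h3 : y.c ∈ B := sp_le (B := B) (fun ψ hψ e => by
    obtain ⟨a, rfl⟩ := mem_Yt.1 hψ
    have := h2 _ h1 (a / b)
    rw [← hb, row_L] at this
    simp only [mul_assoc, mul_div_cancel₀ a hb0] at this
    exact this e) hy.1
  obtain ⟨hc, h⟩ := h3
  rw [eq_tr hy]; exact h

theorem M_inj : Function.Injective M := fun θ η h => by
  have h1 : tr _ (sp_gen (row_mem (1, θ)) 1) ∈ M θ := ⟨sp_gen (row_Yt θ) 1, rfl, rfl⟩
  rw [h] at h1
  obtain ⟨μ, hμ, -⟩ := ex_dual (e := 0) (e' := 1) (by simp)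
  obtain ⟨a, ha⟩ := mem_Yt.1 (sp_row μ h1.1)
  have e : μ ∘ₗ (tr _ (sp_gen (row_mem (1, θ)) 1)).c = row (1, θ) := by
    ext d; simp [tr, hμ]
  rw [e] at ha
  obtain ⟨h2, h3⟩ := Prod.mk.inj (row_inj ha)
  rw [← h3, h2, mul_one]

theorem M_cent (θ η : k) : M η ≤ Subgroup.centralizer (M θ : Set G) := fun y hy x hx =>
  G.ext (by simp [mul_c, hx.2.1, hx.2.2, hy.2.1, hy.2.2, add_comm])
    (by simp [mul_g, hx.2.1, hy.2.1]) (by simp [mul_a, hx.2.2, hy.2.2])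

theorem M_lt (θ : k) : M θ < Subgroup.centralizer (M θ : Set G) := by
  refine lt_of_le_of_ne (M_cent θ θ) fun h => ?_
  have h1 : M (θ + 1) ≤ M θ := (M_cent θ (θ + 1)).trans h.ge
  have h2 := M_inj (le_antisymm h1 ((M_min θ).2 (M_min (θ + 1)).1 h1))
  simp at h2

theorem main :
    ∃ (G : Type) (_ : Group G) (_ : TopologicalSpace G) (_ : IsTopologicalGroup G)
      (H : Subgroup G),
      PolishSpace G ∧ LocallyCompactSpace G ∧
      IsClosed (H : Set G) ∧ H ≠ ⊤ ∧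
      (¬ ∃ K : Subgroup G, IsClosed (K : Set G) ∧ H < K ∧ K < ⊤) ∧
      (∀ x : G, (∀ g : G, g⁻¹ * x * g ∈ H) → x = 1) ∧
      {M : Subgroup G |
        Minimal (fun N : Subgroup G => N ≠ ⊥ ∧ IsClosed (N : Set G) ∧ N.Normal) M ∧
        (∀ x ∈ M, ∀ y ∈ M, x * y = y * x) ∧
        M < Subgroup.centralizer (M : Set G)}.Infinite :=
  ⟨G, inferInstance, inferInstance, inferInstance, H, inferInstance, inferInstance, H_closed,
    H_ne, maximal, faithful,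
    Set.infinite_of_injective_forall_mem M_inj fun θ => ⟨M_min θ, M_comm θ, M_lt θ⟩⟩

end Pool.Agent.P.MP_f36f0e_al.Many
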