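import Pool.Agent.P.MP_f36f0e_al.Alg

set_option autoImplicit false

namespace Pool.Agent.P.MP_f36f0e_al

open Equiv Filter Topology

/-- basic neighbourhoods of the identity -/
def UF (F : Finset ℤ) : Set G := {g | ∃ e : ℤ → ZMod 2, (∀ n ∈ F, e n = 0) ∧ g = u e}

theorem conj_UF (x : G) (F : Finset ℤ) : ∃ F' : Finset ℤ, ∀ g ∈ UF F', x * g * x⁻¹ ∈ UF F := by
  classical
  obtain ⟨x, f, k, d, hf, rfl⟩ := x
  refine ⟨(F ∪ (hf.image Prod.fst).toFinset).image (fun n => n - k), ?_⟩
  rintro _ ⟨e, he, rfl⟩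
  have he' : ∀ n ∈ F ∪ (hf.image Prod.fst).toFinset, e (n - k) = 0 :=
    fun n hn => he _ (Finset.mem_image_of_mem _ hn)
  refine ⟨fun n => e (n - k), fun n hn => he' n (Finset.mem_union_left _ hn), ?_⟩
  apply Subtype.ext
  have h1 : st k d * st 0 e * (st k d)⁻¹ = st 0 (fun n => e (n - k)) := by
    rw [st_inv, st_mul, st_mul]
    congr 1
    · ring
    · funext n
      simp only [add_zero, ← sub_eq_add_neg]
      rw [add_comm (d _), add_assoc, two_add, add_zero]
  have h2 : f * st 0 (fun n => e (n - k)) = st 0 (fun n => e (n - k)) * f := by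
    apply commute_of_disjoint
    rw [Set.disjoint_left]
    intro i hi hi'
    refine supp_st hi' (he' _ (Finset.mem_union_right _ ?_))
    simp only [Set.Finite.mem_toFinset]
    exact ⟨i, hi, rfl⟩
  have h3 : f * st k d * st 0 e * (f * st k d)⁻¹ = f * (st k d * st 0 e * (st k d)⁻¹) * f⁻¹ := by
    group
  simp only [Subgroup.coe_mul, Subgroup.coe_inv, u_val]
  rw [h3, h1, h2]; group

/-- the filter basis -/
@[reducible] def basis : GroupFilterBasis G where
  sets := Set.range UF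
  nonempty := ⟨UF ∅, ∅, rfl⟩
  inter_sets := by
    rintro _ _ ⟨F, rfl⟩ ⟨F', rfl⟩
    refine ⟨UF (F ∪ F'), ⟨_, rfl⟩, ?_⟩
    rintro _ ⟨e, he, rfl⟩
    exact ⟨⟨e, fun n hn => he n (Finset.mem_union_left _ hn), rfl⟩,
      ⟨e, fun n hn => he n (Finset.mem_union_right _ hn), rfl⟩⟩
  one' := by
    rintro _ ⟨F, rfl⟩
    exact ⟨0, fun _ _ => rfl, u_zero.symm⟩
  mul' := by
    rintro _ ⟨F, rfl⟩
    refine ⟨UF F, ⟨F, rfl⟩, ?_⟩
    rintro _ ⟨_, ⟨e, he, rfl⟩, _, ⟨d, hd, rfl⟩, rfl⟩
    exact ⟨e + d, fun n hn => by simp [he n hn, hd n hn], (u_add e d).symm⟩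
  inv' := by
    rintro _ ⟨F, rfl⟩
    refine ⟨UF F, ⟨F, rfl⟩, ?_⟩
    rintro _ ⟨e, he, rfl⟩
    exact ⟨e, he, u_inv e⟩
  conj' := by
    rintro x _ ⟨F, rfl⟩
    obtain ⟨F', h⟩ := conj_UF x F
    exact ⟨UF F', ⟨F', rfl⟩, fun g hg => h g hg⟩

instance : TopologicalSpace G := basis.topology
instance : IsTopologicalGroup G := basis.isTopologicalGroup

theorem mem_nhds_iff' (x : G) (S : Set G) :
    S ∈ 𝓝 x ↔ ∃ F : Finset ℤ, ∀ e : ℤ → ZMod 2, (∀ n ∈ F, e n = 0) → x * (u e : G) ∈ S := by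
  have := (basis.nhds_hasBasis x).mem_iff (t := S)
  refine this.trans ⟨?_, ?_⟩
  · rintro ⟨_, ⟨F, rfl⟩, h⟩
    exact ⟨F, fun e he => h ⟨u e, ⟨e, he, rfl⟩, rfl⟩⟩
  · rintro ⟨F, h⟩
    refine ⟨UF F, ⟨F, rfl⟩, ?_⟩
    rintro _ ⟨_, ⟨e, he, rfl⟩, rfl⟩
    exact h e he

theorem mem_closed {S : Set G} (hS : IsClosed S) (x : G)
    (h : ∀ F : Finset ℤ, ∃ e : ℤ → ZMod 2, (∀ n ∈ F, e n = 0) ∧ x * (u e : G) ∈ S) : x ∈ S := by
  by_contra hx
  obtain ⟨F, hF⟩ := (mem_nhds_iff' x Sᶜ).1 (hS.isOpen_compl.mem_nhds hx)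
  obtain ⟨e, he, h'⟩ := h F
  exact hF e he h'

instance : T2Space G := by
  have := (basis.t2Space_iff_sInter_subset (t := basis.topology) rfl).2 (by
    intro g hg
    have h : ∀ F, g ∈ UF F := fun F => hg _ ⟨F, rfl⟩
    obtain ⟨e, -, rfl⟩ := h ∅
    have : e = 0 := by
      funext n
      obtain ⟨d, hd, e'⟩ := h {n}
      have := congrArg (fun g : G => g.1.s (n, none)) e'
      simpa [hd n (Finset.mem_singleton_self n)] using this
    rw [this, u_zero]; rfl)
  exact this

theorem continuous_u : Continuous (fun e : ℤ → ZMod 2 => (u e : G)) := by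
  rw [continuous_iff_continuousAt]
  intro e S hS
  obtain ⟨F, hF⟩ := (mem_nhds_iff' _ S).1 hS
  have : ∀ᶠ d : ℤ → ZMod 2 in 𝓝 e, ∀ n ∈ F, d n = e n := by
    rw [eventually_all_finset]
    intro n _
    have h : Tendsto (fun d : ℤ → ZMod 2 => d n) (𝓝 e) (𝓝 (e n)) :=
      (continuous_apply n).tendsto e
    exact h.eventually (p := fun y => y = e n) (by simp [nhds_discrete])
  rw [mem_map]
  filter_upwards [this] with d hd
  have := hF (e + d) (fun n hn => by simp [hd n hn, two_add])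
  have e1 : (u e : G) * u (e + d) = u d := by
    rw [← u_add]; congr 1; funext n; simp [← add_assoc, two_add]
  change (u d : G) ∈ S
  rw [← e1]; exact this

theorem compact_U : IsCompact (Set.range fun e : ℤ → ZMod 2 => (u e : G)) :=
  isCompact_range continuous_u

theorem U_mem_nhds : (Set.range fun e : ℤ → ZMod 2 => (u e : G)) ∈ 𝓝 (1 : G) :=
  (mem_nhds_iff' _ _).2 ⟨∅, fun e _ => ⟨e, (one_mul _).symm⟩⟩

instance : LocallyCompactSpace G := compact_U.locallyCompactSpace_of_mem_nhds_of_group U_mem_nhds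

theorem u_mem_of_closed (K : Subgroup G) (hK : IsClosed (K : Set G)) (hsw : ∀ a b, sw a b ∈ K)
    (hfl : ∀ a, fl a ∈ K) (e : ℤ → ZMod 2) : u e ∈ K := by
  classical
  refine mem_closed hK (u e) fun F => ⟨fun n => if n ∈ F then 0 else e n,
    fun n hn => by simp [hn], ?_⟩
  have hfin : (supp (st 0 fun n => if n ∈ F then e n else 0)).Finite := by
    refine (F.finite_toSet.prod (Set.toFinite (Set.univ : Set (Option (ZMod 2))))).subset ?_
    intro i hi
    have := supp_st hi
    refine ⟨?_, trivial⟩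
    by_contra h
    exact this (by simp [show i.1 ∉ F from h])
  have h := gen_fin K hsw hfl _ hfin
  have e1 : (u e : G) * u (fun n => if n ∈ F then 0 else e n)
      = ⟨st 0 fun n => if n ∈ F then e n else 0, fin_mem hfin⟩ := by
    rw [← u_add]
    apply Subtype.ext
    simp only [u_val]
    congr 1
    funext n
    by_cases hn : n ∈ F <;> simp [hn, two_add]
  change (u e : G) * u (fun n => if n ∈ F then 0 else e n) ∈ K
  rw [e1]; exact h

theorem gen_closed (K : Subgroup G) (hK : IsClosed (K : Set G)) (hsw : ∀ a b, sw a b ∈ K)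
    (hfl : ∀ a, fl a ∈ K) (hsh : ∀ k, sh k ∈ K) : K = ⊤ :=
  gen_all K hsw hfl hsh (u_mem_of_closed K hK hsw hfl)

instance : TopologicalSpace.SeparableSpace G := by
  let φ : (I × I) ⊕ I ⊕ ℤ → G := fun x => match x with
    | Sum.inl ab => sw ab.1 ab.2
    | Sum.inr (Sum.inl a) => fl a
    | Sum.inr (Sum.inr k) => sh k
  let D : Subgroup G := (FreeGroup.lift φ).range
  have hD : ∀ x, φ x ∈ D := fun x => ⟨FreeGroup.of x, by simp⟩
  refine ⟨⟨(D : Set G), Set.countable_range _, ?_⟩⟩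
  have : D.topologicalClosure = ⊤ :=
    gen_closed _ D.isClosed_topologicalClosure
      (fun a b => D.le_topologicalClosure (hD (Sum.inl (a, b))))
      (fun a => D.le_topologicalClosure (hD (Sum.inr (Sum.inl a))))
      (fun k => D.le_topologicalClosure (hD (Sum.inr (Sum.inr k))))
  rw [dense_iff_closure_eq, ← Subgroup.topologicalClosure_coe, this]; rfl

instance : PolishSpace G := by
  let := IsTopologicalGroup.rightUniformSpace G
  have : IsRightUniformGroup G := ⟨rfl⟩
  have : CompleteSpace G := IsRightUniformGroup.completeSpace_of_weaklyLocallyCompactSpace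
  have : (𝓝 (1 : G)).IsCountablyGenerated := by
    have hb : (𝓝 (1 : G)).HasBasis (fun _ : Finset ℤ => True)
        (fun F => {g : G | ∃ e : ℤ → ZMod 2, (∀ n ∈ F, e n = 0) ∧ g = u e}) := by
      refine ⟨fun S => (mem_nhds_iff' 1 S).trans ⟨?_, ?_⟩⟩
      · rintro ⟨F, h⟩
        refine ⟨F, trivial, ?_⟩
        rintro _ ⟨e, he, rfl⟩
        simpa using h e he
      · rintro ⟨F, -, h⟩
        exact ⟨F, fun e he => by simpa using h ⟨e, he, rfl⟩⟩
    exact (HasCountableBasis.mk hb (Set.to_countable _)).isCountablyGenerated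
  have : (uniformity G).IsCountablyGenerated := by
    rw [uniformity_eq_comap_nhds_one']; infer_instance
  have : TopologicalSpace.IsCompletelyMetrizableSpace G :=
    TopologicalSpace.IsCompletelyMetrizableSpace.of_completeSpace_metrizable
  infer_instance

/-- compact generation -/
theorem compactly_generated : ∃ K : Set G, IsCompact K ∧ Subgroup.closure K = ⊤ := by
  let K0 : Set G := Set.range (fun ab : Option (ZMod 2) × Option (ZMod 2) =>
    (sw (0, ab.1) (1, ab.2) : G)) ∪ {(fl (0, none) : G), (sh 1 : G)}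
  have hK0 : K0.Finite := (Set.finite_range _).union ((Set.finite_singleton _).insert _)
  refine ⟨(Set.range fun e : ℤ → ZMod 2 => (u e : G)) ∪ K0, compact_U.union hK0.isCompact, ?_⟩
  set L : Subgroup G := Subgroup.closure ((Set.range fun e : ℤ → ZMod 2 => (u e : G)) ∪ K0) with hL
  have hsh1 : sh 1 ∈ L := Subgroup.subset_closure (Or.inr (Or.inr (Or.inr rfl)))
  have hfl0 : fl (0, none) ∈ L := Subgroup.subset_closure (Or.inr (Or.inr (Or.inl rfl)))
  have hsw0 : ∀ a b, sw (0, a) (1, b) ∈ L := fun a b =>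
    Subgroup.subset_closure (Or.inr (Or.inl ⟨(a, b), rfl⟩))
  have hu : ∀ e, u e ∈ L := fun e => Subgroup.subset_closure (Or.inl ⟨e, rfl⟩)
  have sh_add : ∀ k l, sh (k + l) = sh k * sh l := fun k l => by
    apply Subtype.ext; simp [st_mul]; rfl
  have sh_zero : sh 0 = 1 := Subtype.ext st_zero
  have hsh : ∀ k, sh k ∈ L := by
    intro k
    induction k using Int.induction_on with
    | zero => rw [sh_zero]; exact L.one_mem
    | succ n ih => rw [sh_add]; exact L.mul_mem ih hsh1
    | pred n ih =>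
      have : sh (-(n : ℤ) - 1) = sh (-n) * (sh 1)⁻¹ := by
        rw [eq_mul_inv_iff_mul_eq, ← sh_add]; congr 1; ring
      rw [this]; exact L.mul_mem ih (L.inv_mem hsh1)
  have hshs : ∀ k i, (sh k).1.s i = 0 := by
    rintro k ⟨n, _ | x⟩ <;> simp
  have hshp : ∀ k n a, (sh k).1.p (n, a) = (n + k, a) := by
    rintro k n (_ | x) <;> simp
  have hsw1 : ∀ n a b, sw (n, a) (n + 1, b) ∈ L := by
    intro n a b
    have := L.mul_mem (L.mul_mem (hsh n) (hsw0 a b)) (L.inv_mem (hsh n))
    rw [conj_sw_of_s _ (hshs n), hshp, hshp, zero_add, add_comm] at this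
    exact this
  have sw_comm : ∀ a b, sw a b = sw b a := fun a b => by
    apply G.ext' <;> intro i <;> simp [swap_comm a b]
  have sw_trans : ∀ a b c, sw a b ∈ L → sw b c ∈ L → sw a c ∈ L := by
    intro a b c hab hbc
    by_cases h1 : a = b
    · rwa [h1]
    by_cases h2 : a = c
    · subst h2
      have : sw a a = 1 := by apply G.ext' <;> intro i <;> simp
      rw [this]; exact L.one_mem
    have := L.mul_mem (L.mul_mem hbc hab) (L.inv_mem hbc)
    rw [conj_sw_of_s _ (fun i => rfl)] at this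
    simpa [swap_apply_of_ne_of_ne h1 h2] using this
  have hsw2 : ∀ n a, sw (n, a) (0, none) ∈ L := by
    intro n
    induction n using Int.induction_on with
    | zero =>
      intro a
      exact sw_trans _ (0 + 1, none) _ (hsw1 0 a none) (sw_comm _ _ ▸ hsw1 0 none none)
    | succ n ih =>
      intro a
      exact sw_trans _ (n, none) _ (sw_comm _ _ ▸ hsw1 n none a) (ih none)
    | pred n ih =>
      intro a
      have := hsw1 (-(n : ℤ) - 1) a none
      rw [sub_add_cancel] at this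
      exact sw_trans _ _ _ this (ih none)
  have hsw : ∀ a b, sw a b ∈ L := by
    rintro ⟨n, a⟩ ⟨m, b⟩
    exact sw_trans _ _ _ (hsw2 n a) (sw_comm _ _ ▸ hsw2 m b)
  have hfl : ∀ a, fl a ∈ L := by
    intro a
    have := L.mul_mem (L.mul_mem (hsw a (0, none)) hfl0) (L.inv_mem (hsw a (0, none)))
    rw [conj_fl] at this
    simpa using this
  exact gen_all L hsw hfl hsh hu

end Pool.Agent.P.MP_f36f0e_al
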